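import Pool.Agent.H8.HS.Pk

/-!
# Covering null sets by small compact sets, with everything saturated by a compact subgroup
-/

set_option autoImplicit false
set_option linter.unusedSectionVars false

open MeasureTheory MeasureTheory.Measure Set Filter Topology
open scoped Pointwise ENNReal NNReal

namespace Pool.Agent.H8.HS

open Pool.Agent.Results.MP_5eb27c_an.PackNull (exists_open_sigma right_null)

section Cover

variable {G : Type*} [Group G] [TopologicalSpace G] [IsTopologicalGroup G]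
  [LocallyCompactSpace G] [T2Space G] [MeasurableSpace G] [BorelSpace G]

/-- The elements whose whole conjugacy class under a compact set lies in an open set form an open set. -/
theorem conj_open {H : Set G} (hH : IsCompact H) {t : Set G} (ht : IsOpen t) :
    IsOpen {x : G | ∀ h ∈ H, h * x * h⁻¹ ∈ t} := by
  rw [isOpen_iff_mem_nhds]
  intro x hx
  have h1 : ∀ h ∈ H, ∀ᶠ z : G × G in 𝓝 (x, h), z.2 * z.1 * z.2⁻¹ ∈ t := by
    intro h hh
    have hc : Continuous fun z : G × G => z.2 * z.1 * z.2⁻¹ := by fun_prop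
    exact hc.continuousAt.eventually_mem (ht.mem_nhds (hx h hh))
  exact hH.eventually_forall_of_forall_eventually (P := fun x h => h * x * h⁻¹ ∈ t) h1

/-- The largest saturated subset of an open set is open. -/
theorem sat_open {H : Set G} (hH : IsCompact H) {t : Set G} (ht : IsOpen t) :
    IsOpen {x : G | ∀ h ∈ H, x * h ∈ t} := by
  rw [isOpen_iff_mem_nhds]
  intro x hx
  have h1 : ∀ h ∈ H, ∀ᶠ z : G × G in 𝓝 (x, h), z.1 * z.2 ∈ t := by
    intro h hh
    have hc : Continuous fun z : G × G => z.1 * z.2 := by fun_prop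
    exact hc.continuousAt.eventually_mem (ht.mem_nhds (hx h hh))
  exact hH.eventually_forall_of_forall_eventually (P := fun x h => x * h ∈ t) h1

/-- A shrinking sequence of symmetric open neighbourhoods of the identity, invariant under conjugation by a compact
subgroup. -/
theorem seq_nhds (H : Subgroup G) (hH : IsCompact (H : Set G)) (M : ℕ → Set G) (hM : ∀ n, M n ∈ 𝓝 (1 : G)) :
    ∃ N : ℕ → Set G, (∀ n, IsOpen (N n)) ∧ (∀ n, (1 : G) ∈ N n) ∧ (∀ n, N n ⊆ M n) ∧
      (∀ n, (N n)⁻¹ = N n) ∧ (∀ n, N (n + 1) * N (n + 1) ⊆ N n) ∧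
      ∀ n, ∀ u ∈ N n, ∀ h ∈ H, h * u * h⁻¹ ∈ N n := by
  have key : ∀ (n : ℕ) (s : {s : Set G // s ∈ 𝓝 (1 : G)}), ∃ t : {s : Set G // s ∈ 𝓝 (1 : G)},
      IsOpen t.1 ∧ t.1 ⊆ M n ∧ t.1⁻¹ = t.1 ∧ t.1 * t.1 ⊆ s.1 ∧ ∀ u ∈ t.1, ∀ h ∈ H, h * u * h⁻¹ ∈ t.1 := by
    intro n s
    obtain ⟨V, hVo, hV1, hVs⟩ := exists_open_nhds_one_mul_subset (inter_mem s.2 (hM n))
    have hW : IsOpen (V ∩ V⁻¹) := hVo.inter hVo.inv
    have hW1 : (1 : G) ∈ V ∩ V⁻¹ := ⟨hV1, by simpa using hV1⟩
    set W : Set G := {x : G | ∀ h ∈ (H : Set G), h * x * h⁻¹ ∈ V ∩ V⁻¹} with hWdef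
    have hWo : IsOpen W := conj_open hH hW
    have hWW1 : (1 : G) ∈ W := by
      intro h _
      simpa using hW1
    have hWV : W ⊆ V ∩ V⁻¹ := by
      intro x hx
      have := hx 1 H.one_mem
      simpa using this
    have hinv : ∀ x ∈ W, x⁻¹ ∈ W := by
      intro x hx h hh
      have h1 := hx h hh
      have h2 : h * x⁻¹ * h⁻¹ = (h * x * h⁻¹)⁻¹ := by group
      rw [h2]
      refine ⟨h1.2, ?_⟩
      rw [Set.mem_inv, inv_inv]
      exact h1.1
    refine ⟨⟨W, hWo.mem_nhds hWW1⟩, hWo, ?_, ?_, ?_, ?_⟩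
    · intro x hx
      have : x * 1 ∈ V * V := ⟨x, (hWV hx).1, 1, hV1, rfl⟩
      rw [mul_one] at this
      exact (hVs this).2
    · ext x
      constructor
      · intro hx
        have := hinv _ hx
        rwa [inv_inv] at this
      · intro hx
        exact hinv _ hx
    · exact ((mul_subset_mul (hWV.trans inter_subset_left) (hWV.trans inter_subset_left)).trans hVs).trans
        inter_subset_left
    · intro u hu h hh k hk
      have h1 := hu (k * h) (H.mul_mem hk hh)
      have h2 : k * (h * u * h⁻¹) * k⁻¹ = (k * h) * u * (k * h)⁻¹ := by group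
      rw [h2]
      exact h1
  choose f hf using key
  let N : ℕ → {s : Set G // s ∈ 𝓝 (1 : G)} := fun n =>
    Nat.rec (f 0 ⟨univ, univ_mem⟩) (fun n s => f (n + 1) s) n
  refine ⟨fun n => (N n).1, ?_, ?_, ?_, ?_, ?_, ?_⟩
  · rintro (_ | n)
    · exact (hf 0 _).1
    · exact (hf (n + 1) _).1
  · exact fun n => mem_of_mem_nhds (N n).2
  · rintro (_ | n)
    · exact (hf 0 _).2.1
    · exact (hf (n + 1) _).2.1
  · rintro (_ | n)
    · exact (hf 0 _).2.2.1
    · exact (hf (n + 1) _).2.2.1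
  · intro n
    exact (hf (n + 1) (N n)).2.2.2.1
  · rintro (_ | n)
    · exact (hf 0 _).2.2.2.2
    · exact (hf (n + 1) _).2.2.2.2

/-- A null set inside a compact region, both saturated by a compact subgroup, is covered by compact saturated subsets of
the region whose measures are below any prescribed positive bounds. -/
theorem cover (μ : Measure G) [IsHaarMeasure μ] [Regular μ] (H : Subgroup G) (hH : IsCompact (H : Set G))
    {E C : Set G} (hE : μ E = 0) (hC : IsCompact C) (hEC : E ⊆ C) (hEH : ∀ x ∈ E, ∀ h ∈ H, x * h ∈ E)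
    (hCH : ∀ x ∈ C, ∀ h ∈ H, x * h ∈ C) (δ : ℕ → ℝ≥0∞) (hδ : ∀ n, 0 < δ n) :
    ∃ K : ℕ → Set G, (∀ n, IsCompact (K n) ∧ K n ⊆ C ∧ μ (K n) < δ n ∧ ∀ x ∈ K n, ∀ h ∈ H, x * h ∈ K n) ∧
      E ⊆ ⋃ n, K n := by
  obtain ⟨V', hEV', hVo', hVm'⟩ := E.exists_isOpen_lt_of_lt (μ := μ) (min (δ 0) 1)
    (by rw [hE]; exact lt_min (hδ 0) one_pos)
  obtain ⟨V, hVdef⟩ : ∃ V : Set G, V = {x : G | ∀ h ∈ (H : Set G), x * h ∈ V'} := ⟨_, rfl⟩
  have hVV' : V ⊆ V' := by
    intro x hx
    rw [hVdef] at hx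
    have := hx 1 H.one_mem
    rwa [mul_one] at this
  have hEV : E ⊆ V := by
    intro x hx
    rw [hVdef]
    intro h hh
    exact hEV' (hEH x hx h hh)
  have hVo : IsOpen V := by rw [hVdef]; exact sat_open hH hVo'
  have hVm : μ V < min (δ 0) 1 := (measure_mono hVV').trans_lt hVm'
  have hVH : ∀ x ∈ V, ∀ h ∈ H, x * h ∈ V := by
    intro x hx h hh
    rw [hVdef] at hx ⊢
    intro k hk
    rw [mul_assoc]
    exact hx _ (H.mul_mem hh hk)
  have hVfin : μ V ≠ ⊤ := (hVm.trans_le (min_le_right _ _)).ne_top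
  obtain ⟨L, hLc, hLo, hLV, hLm⟩ := exists_open_sigma μ hVo hVfin
  set V₀ : Set G := ⋃ n, L n with hV₀
  have hW : ∀ n, ∃ W ∈ 𝓝 (1 : G), L n * W ⊆ V₀ := fun n =>
    compact_open_separated_mul_right (hLc n) hLo (subset_iUnion L n)
  choose W hW1 hWL using hW
  obtain ⟨T, hTc, hT1⟩ := exists_compact_mem_nhds (1 : G)
  obtain ⟨N, hNo, hN1, hNM, hNinv, hNmul, hNH⟩ := seq_nhds H hH (fun n => W n ∩ T)
    (fun n => inter_mem (hW1 n) hT1)
  have hNsucc : ∀ n, N (n + 1) ⊆ N n := by
    intro n x hx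
    exact hNmul n ⟨x, hx, 1, hN1 (n + 1), mul_one x⟩
  have hNanti : Antitone N := antitone_nat_of_succ_le hNsucc
  have hNcl : ∀ n, closure (N (n + 1)) ⊆ N n := by
    intro n x hx
    rw [mem_closure_iff_nhds] at hx
    have hxN : x • N (n + 1) ∈ 𝓝 x := by
      have := (hNo (n + 1)).smul x
      exact this.mem_nhds ⟨1, hN1 (n + 1), by simp⟩
    obtain ⟨y, ⟨u, hu, rfl⟩, hy⟩ := hx _ hxN
    have hy' : x * u ∈ N (n + 1) := hy
    have hu' : u⁻¹ ∈ N (n + 1) := by
      rw [← hNinv (n + 1)]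
      simpa using hu
    apply hNmul n
    exact ⟨x * u, hy', u⁻¹, hu', by simp⟩
  set Kc : Set G := ⋂ n, N n with hKc
  have hKmul : ∀ a ∈ Kc, ∀ b ∈ Kc, a * b ∈ Kc := by
    intro a ha b hb
    simp only [hKc, mem_iInter] at ha hb ⊢
    intro n
    exact hNmul n ⟨a, ha (n + 1), b, hb (n + 1), rfl⟩
  have hKV₀ : ∀ x ∈ V₀, ∀ k ∈ Kc, x * k ∈ V₀ := by
    intro x hx k hk
    obtain ⟨n, hn⟩ := mem_iUnion.mp hx
    simp only [hKc, mem_iInter] at hk
    exact hWL n ⟨x, hn, k, (hNM n (hk n)).1, rfl⟩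
  have hKcH : ∀ a ∈ Kc, ∀ h ∈ H, h * a * h⁻¹ ∈ Kc := by
    intro a ha h hh
    simp only [hKc, mem_iInter] at ha ⊢
    intro n
    exact hNH n a (ha n) h hh
  set V₁ : Set G := V * Kc with hV₁
  have hV₁o : IsOpen V₁ := hVo.mul_right
  have hV₁H : ∀ x ∈ V₁, ∀ h ∈ H, x * h ∈ V₁ := by
    rintro _ ⟨v, hv, k, hk, rfl⟩ h hh
    refine ⟨v * h, hVH v hv h hh, h⁻¹ * k * h⁻¹⁻¹, hKcH k hk h⁻¹ (H.inv_mem hh), ?_⟩
    simp only
    group
  have h1K : (1 : G) ∈ Kc := by
    simp only [hKc, mem_iInter]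
    exact hN1
  have hVV₁ : V ⊆ V₁ := fun x hx => ⟨x, hx, 1, h1K, mul_one x⟩
  set D : ℕ → Set G := fun i => {x ∈ C | ∀ u ∈ N i, x * u ∈ V₁} with hD
  have hDC : ∀ i, D i ⊆ C := fun i => sep_subset _ _
  have hDH : ∀ i, ∀ x ∈ D i, ∀ h ∈ H, x * h ∈ D i := by
    intro i x hx h hh
    refine ⟨hCH x hx.1 h hh, ?_⟩
    intro u hu
    have h1 := hV₁H _ (hx.2 (h * u * h⁻¹) (hNH i u hu h hh)) h hh
    have h2 : x * (h * u * h⁻¹) * h = x * h * u := by group
    rwa [h2] at h1
  have hclH : ∀ i, ∀ x ∈ closure (D i), ∀ h ∈ H, x * h ∈ closure (D i) := by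
    intro i x hx h hh
    exact map_mem_closure (f := fun y : G => y * h) (continuous_mul_const h) hx (fun y hy => hDH i y hy h hh)
  have hDV : ∀ i, D i ⊆ V₁ := by
    intro i x hx
    have := hx.2 1 (hN1 i)
    rwa [mul_one] at this
  -- every point of `C ∩ V₁` lies in some `D i`
  have hcovD : C ∩ V₁ ⊆ ⋃ i, D i := by
    intro x hx
    by_contra hcon
    simp only [mem_iUnion, not_exists] at hcon
    have hne : ∀ i, ∃ u ∈ N i, x * u ∉ V₁ := by
      intro i
      by_contra h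
      push Not at h
      exact hcon i ⟨hx.1, h⟩
    have hcont : Continuous (fun u : G => x * u) := continuous_const_mul x
    have hcl : IsClosed ((fun u : G => x * u) ⁻¹' V₁ᶜ) := hV₁o.isClosed_compl.preimage hcont
    obtain ⟨u, hu⟩ := IsCompact.nonempty_iInter_of_sequence_nonempty_isCompact_isClosed
      (fun i => closure (N i) ∩ (fun u : G => x * u) ⁻¹' V₁ᶜ)
      (fun i => inter_subset_inter_left _ (closure_mono (hNsucc i)))
      (fun i => by
        obtain ⟨u, hu, hxu⟩ := hne i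
        exact ⟨u, subset_closure hu, hxu⟩)
      (by
        have : IsCompact (closure (N 0)) :=
          hTc.of_isClosed_subset isClosed_closure
            (closure_minimal ((hNM 0).trans inter_subset_right) hTc.isClosed)
        exact this.inter_right hcl)
      (fun i => isClosed_closure.inter hcl)
    simp only [mem_iInter] at hu
    have huK : u ∈ Kc := by
      simp only [hKc, mem_iInter]
      intro n
      exact hNcl n (hu (n + 1)).1
    apply (hu 0).2
    obtain ⟨v, hv, k, hk, hvk⟩ := hx.2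
    have hvk' : v * k = x := hvk
    refine ⟨v, hv, k * u, hKmul k hk u huK, ?_⟩
    simp only
    rw [← mul_assoc, hvk']
  have hclD : ∀ i, closure (D i) ⊆ D (i + 1) := by
    intro i y hy
    have hyC : y ∈ C := by
      have := closure_mono (hDC i) hy
      rwa [hC.isClosed.closure_eq] at this
    refine ⟨hyC, ?_⟩
    intro u hu
    rw [mem_closure_iff_nhds] at hy
    have hyN : y • N (i + 1) ∈ 𝓝 y := by
      have := (hNo (i + 1)).smul y
      exact this.mem_nhds ⟨1, hN1 (i + 1), by simp⟩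
    obtain ⟨x, ⟨t, ht, hxt⟩, hxD⟩ := hy _ hyN
    have hxt' : y * t = x := hxt
    have ht' : t⁻¹ ∈ N (i + 1) := by
      rw [← hNinv (i + 1)]
      simpa using ht
    have := hxD.2 (t⁻¹ * u) (hNmul i ⟨t⁻¹, ht', u, hu, rfl⟩)
    rw [← hxt'] at this
    simpa [mul_assoc] using this
  have hDmono : Monotone D := by
    apply monotone_nat_of_le_succ
    intro i
    exact subset_closure.trans (hclD i)
  have hDN : ∀ i, C ∩ (closure (D i) * N (i + 2)) ⊆ D (i + 2) := by
    rintro i y ⟨hyC, x, hx, t, ht, hxt⟩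
    have hxt' : x * t = y := hxt
    refine ⟨hyC, ?_⟩
    intro u hu
    have := (hclD i hx).2 (t * u) (hNmul (i + 1) ⟨t, ht, u, hu, rfl⟩)
    rw [← hxt']
    simpa [mul_assoc] using this
  have hclDc : ∀ i, IsCompact (closure (D i)) := fun i =>
    hC.of_isClosed_subset isClosed_closure (closure_minimal (hDC i) hC.isClosed)
  -- the saturation adds only a null set
  have hnull : ∀ i, μ (closure (D i) \ V₀) = 0 := by
    intro i
    have hsub : closure (D i) ⊆ ⋃ k : Kc, (fun x => x * (k : G)⁻¹) ⁻¹' V := by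
      intro x hx
      obtain ⟨v, hv, k, hk, hvk⟩ := hDV (i + 1) (hclD i hx)
      have hvk' : v * k = x := hvk
      refine mem_iUnion.mpr ⟨⟨k, hk⟩, ?_⟩
      simp only [mem_preimage]
      rw [← hvk']
      simpa using hv
    obtain ⟨t, ht⟩ := (hclDc i).elim_finite_subcover _
      (fun k : Kc => hVo.preimage (continuous_mul_const ((k : G)⁻¹))) hsub
    have hle : closure (D i) \ V₀ ⊆ ⋃ k ∈ t, (fun x => x * (k : G)⁻¹) ⁻¹' (V \ V₀) := by
      rintro x ⟨hx, hxV₀⟩
      obtain ⟨k, hk⟩ := mem_iUnion.mp (ht hx)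
      obtain ⟨hkt, hk'⟩ := mem_iUnion.mp hk
      refine mem_iUnion.mpr ⟨k, mem_iUnion.mpr ⟨hkt, hk', ?_⟩⟩
      intro hmem
      apply hxV₀
      have := hKV₀ _ hmem k k.2
      simpa using this
    apply measure_mono_null hle
    have := (measure_biUnion_null_iff (μ := μ) (s := fun k : Kc =>
      (fun x => x * (k : G)⁻¹) ⁻¹' (V \ V₀)) t.countable_toSet).mpr
      (fun k _ => right_null μ hLm _)
    exact this
  set M : Set G := ⋃ i, closure (D i) with hM
  have hMC : M ⊆ C := iUnion_subset fun i => (hclD i).trans (hDC (i + 1))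
  have hEM : E ⊆ M := by
    intro x hx
    obtain ⟨i, hi⟩ := mem_iUnion.mp (hcovD ⟨hEC hx, hVV₁ (hEV hx)⟩)
    exact mem_iUnion.mpr ⟨i, subset_closure hi⟩
  have hMm : μ M < δ 0 := by
    have h1 : μ (M \ V₀) = 0 := by
      rw [hM, iUnion_sdiff, measure_iUnion_null_iff]
      exact hnull
    calc μ M ≤ μ (M \ V₀) + μ V₀ := by
          refine (measure_mono ?_).trans (measure_union_le _ _)
          intro x hx
          by_cases h : x ∈ V₀
          · exact Or.inr h
          · exact Or.inl ⟨hx, h⟩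
      _ = μ V₀ := by rw [h1, zero_add]
      _ ≤ μ V := measure_mono hLV
      _ < δ 0 := hVm.trans_le (min_le_left _ _)
  have hMmeas : MeasurableSet M := MeasurableSet.iUnion fun i => (hclDc i).measurableSet
  have hclmono : Monotone (fun i => closure (D i)) := fun i j hij => closure_mono (hDmono hij)
  have htend : Tendsto (fun i => μ (M \ closure (D i))) atTop (𝓝 0) := by
    have h1 := tendsto_measure_iInter_atTop (μ := μ) (s := fun i => M \ closure (D i))
      (fun i => (hMmeas.diff (hclDc i).measurableSet).nullMeasurableSet)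
      (fun i j hij => sdiff_subset_sdiff_right (hclmono hij))
      ⟨0, ne_top_of_le_ne_top hMm.ne_top (measure_mono sdiff_subset)⟩
    have h2 : (⋂ i, M \ closure (D i)) = ∅ := by
      rw [← sdiff_iUnion, hM, Set.sdiff_self]
    rw [h2, measure_empty] at h1
    exact h1
  have hj : ∀ n, ∃ j, n ≤ j ∧ μ (M \ closure (D j)) < δ (n + 1) := by
    intro n
    have h1 := htend.eventually_lt_const (hδ (n + 1))
    obtain ⟨j, hj1, hj2⟩ := (h1.and (eventually_ge_atTop n)).exists
    exact ⟨j, hj2, hj1⟩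
  choose J hJn hJm using hj
  refine ⟨fun n => Nat.casesOn n (closure (D (J 0 + 2)))
    (fun n => closure (D (J (n + 1) + 2)) \ (closure (D (J n)) * N (J n + 2))), ?_, ?_⟩
  · rintro (_ | n)
    · refine ⟨hclDc _, ?_, ?_, hclH _⟩
      · exact (subset_iUnion (fun i => closure (D i)) _).trans hMC
      · exact lt_of_le_of_lt (measure_mono (subset_iUnion (fun i => closure (D i)) _)) hMm
    · refine ⟨?_, ?_, ?_, ?_⟩
      · exact (hclDc _).diff (hNo _).mul_left
      · exact sdiff_subset.trans ((subset_iUnion (fun i => closure (D i)) _).trans hMC)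
      · refine lt_of_le_of_lt (measure_mono ?_) (hJm n)
        intro x hx
        refine ⟨mem_iUnion.mpr ⟨_, hx.1⟩, ?_⟩
        intro hx'
        exact hx.2 ⟨x, hx', 1, hN1 _, mul_one x⟩
      · intro x hx h hh
        refine ⟨hclH _ x hx.1 h hh, ?_⟩
        rintro ⟨d, hd, u, hu, hdu⟩
        apply hx.2
        have hdu' : d * u = x * h := hdu
        refine ⟨d * h⁻¹, hclH _ d hd h⁻¹ (H.inv_mem hh), h * u * h⁻¹, hNH _ u hu h hh, ?_⟩
        show d * h⁻¹ * (h * u * h⁻¹) = x
        have h3 : d * h⁻¹ * (h * u * h⁻¹) = (d * u) * h⁻¹ := by group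
        rw [h3, hdu', mul_inv_cancel_right]
  · intro x hx
    have hxM := hEM hx
    have hex : ∃ n, x ∈ closure (D (J n + 2)) := by
      obtain ⟨i, hi⟩ := mem_iUnion.mp hxM
      refine ⟨i, hclmono ?_ hi⟩
      exact (hJn i).trans (Nat.le_add_right _ _)
    classical
    have hspec := Nat.find_spec hex
    rcases hn : Nat.find hex with _ | n
    · rw [hn] at hspec
      exact mem_iUnion.mpr ⟨0, hspec⟩
    · rw [hn] at hspec
      refine mem_iUnion.mpr ⟨n + 1, hspec, ?_⟩
      intro hmem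
      have hmin := Nat.find_min hex (m := n) (by omega)
      apply hmin
      exact subset_closure (hDN (J n) ⟨hMC hxM, hmem⟩)

end Cover

end Pool.Agent.H8.HS
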