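import Pool.Agent.H8.HS.Null

/-!
# Countable Borel equidecomposability for an invariant measure

The arguments of the library module `Y274.EQM` (left translations of a group) for an action on a space `Ω` with an
invariant measure in which null sets can be packed into open sets and any two Borel sets of positive finite measure meet in
positive measure after a translation (`Good`).
-/

set_option autoImplicit false
set_option linter.unusedSectionVars false

open MeasureTheory MeasureTheory.Measure Set Filter Topology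
open scoped Pointwise ENNReal NNReal

namespace Pool.Agent.H8.HS

/-- `A` is countably equidecomposable with `B` for the action of `G`, with Borel pieces: there are countable partitions of
`A` and of `B` into Borel sets `P i` and `Q i` (pieces may be empty), and group elements `g i`, such that `g i` carries `P i`
onto `Q i`. -/
def CountablyBorelEquidecomposable (G : Type*) {Ω : Type*} [Group G] [MulAction G Ω] [MeasurableSpace Ω]
    (A B : Set Ω) : Prop :=
  ∃ (P Q : ℕ → Set Ω) (g : ℕ → G),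
    (∀ i, MeasurableSet (P i)) ∧ (∀ i, MeasurableSet (Q i)) ∧
    Pairwise (fun i j => Disjoint (P i) (P j)) ∧ Pairwise (fun i j => Disjoint (Q i) (Q j)) ∧
    (⋃ i, P i) = A ∧ (⋃ i, Q i) = B ∧ ∀ i, (fun x => g i • x) '' (P i) = Q i

section Eq

variable {G Ω : Type*} [Group G] [TopologicalSpace G]
  [TopologicalSpace Ω] [T2Space Ω] [MulAction G Ω] [ContinuousSMul G Ω] [MeasurableSpace Ω] [BorelSpace Ω]

/-- the part of `A` which the translation by `g` moves into `B` -/
def mv (g : G) (A B : Set Ω) : Set Ω := {x ∈ A | g • x ∈ B}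

theorem mv_meas {g : G} {A B : Set Ω} (hA : MeasurableSet A) (hB : MeasurableSet B) :
    MeasurableSet (mv g A B) :=
  hA.inter ((continuous_const_smul g).measurable hB)

/-- What is used of the invariant measure. -/
structure Good (G : Type*) {Ω : Type*} [Group G] [TopologicalSpace Ω] [MulAction G Ω] [MeasurableSpace Ω]
    (μ : Measure Ω) : Prop where
  meet : ∀ {A B : Set Ω}, MeasurableSet A → MeasurableSet B → 0 < μ A → 0 < μ B → μ A ≠ ⊤ → μ B ≠ ⊤ →
    ∃ g : G, 0 < μ (mv g A B)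
  pack : ∀ {E U : Set Ω}, MeasurableSet E → μ E = 0 → IsOpen U → U.Nonempty → Pk G E U
  seq : ∀ {E U : Set Ω}, μ E = 0 → E.Nonempty → IsOpen U → U.Nonempty →
    ∃ O : ℕ → Set Ω, (∀ n, IsOpen (O n)) ∧ (∀ n, (O n).Nonempty) ∧ (∀ n, O n ⊆ U) ∧
      Pairwise (fun i j => Disjoint (O i) (O j))

theorem Pk.toEquidecomposable {Z Y : Set Ω} (h : Pk G Z Y) :
    ∃ F ⊆ Y, CountablyBorelEquidecomposable G Z F := by
  classical
  obtain ⟨ι, hι, P, g, h1, h2, h3, h4, h5⟩ := h
  obtain ⟨e, he⟩ := Countable.exists_injective_nat ι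
  have hcase : ∀ m : ℕ, (∃ i, m = e i ∧ Function.extend e P (fun _ => ∅) m = P i ∧
      Function.extend e g (fun _ => 1) m = g i) ∨
      (Function.extend e P (fun _ => ∅) m = ∅ ∧ ¬ ∃ i, e i = m) := by
    intro m
    by_cases hm : ∃ i, e i = m
    · obtain ⟨i, rfl⟩ := hm
      exact Or.inl ⟨i, rfl, he.extend_apply P _ i, he.extend_apply g _ i⟩
    · exact Or.inr ⟨Function.extend_apply' _ _ _ hm, hm⟩
  refine ⟨⋃ i, g i • P i, iUnion_subset h5, Function.extend e P (fun _ => ∅),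
    fun m => (Function.extend e g (fun _ => 1) m) • (Function.extend e P (fun _ => ∅) m),
    Function.extend e g (fun _ => 1), ?_, ?_, ?_, ?_, ?_, ?_, ?_⟩
  · intro m
    rcases hcase m with ⟨i, -, hP, -⟩ | ⟨hP, -⟩
    · rw [hP]; exact h1 i
    · rw [hP]; exact MeasurableSet.empty
  · intro m
    simp only
    rcases hcase m with ⟨i, -, hP, hg⟩ | ⟨hP, -⟩
    · rw [hP, hg]; exact meas_smul (h1 i) (g i)
    · rw [hP, smul_set_empty]; exact MeasurableSet.empty
  · intro m n hmn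
    rcases hcase m with ⟨i, hi, hP, -⟩ | ⟨hP, -⟩
    · rcases hcase n with ⟨j, hj, hQ, -⟩ | ⟨hQ, -⟩
      · rw [hP, hQ]
        apply h2
        rintro rfl
        exact hmn (hi.trans hj.symm)
      · rw [hQ]; exact disjoint_bot_right
    · rw [hP]; exact disjoint_bot_left
  · intro m n hmn
    simp only
    rcases hcase m with ⟨i, hi, hP, hg⟩ | ⟨hP, -⟩
    · rcases hcase n with ⟨j, hj, hQ, hg'⟩ | ⟨hQ, -⟩
      · rw [hP, hQ, hg, hg']
        apply h4
        rintro rfl
        exact hmn (hi.trans hj.symm)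
      · rw [hQ, smul_set_empty]; exact disjoint_bot_right
    · rw [hP, smul_set_empty]; exact disjoint_bot_left
  · rw [← h3]
    ext x
    simp only [mem_iUnion]
    constructor
    · rintro ⟨m, hm⟩
      rcases hcase m with ⟨i, -, hP, -⟩ | ⟨hP, -⟩
      · rw [hP] at hm; exact ⟨i, hm⟩
      · rw [hP] at hm; exact hm.elim
    · rintro ⟨i, hi⟩
      refine ⟨e i, ?_⟩
      rw [he.extend_apply]
      exact hi
  · ext x
    simp only [mem_iUnion]
    constructor
    · rintro ⟨m, hm⟩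
      rcases hcase m with ⟨i, -, hP, hg⟩ | ⟨hP, -⟩
      · rw [hP, hg] at hm; exact ⟨i, hm⟩
      · rw [hP, smul_set_empty] at hm; exact hm.elim
    · rintro ⟨i, hi⟩
      refine ⟨e i, ?_⟩
      rw [he.extend_apply, he.extend_apply]
      exact hi
  · intro m
    rfl

/-- Exhaustion: a maximal piecewise translation between Borel sets of finite measure. -/
theorem exhaust (μ : Measure Ω) [SMulInvariantMeasure G Ω μ] (hμ : Good G μ) {A B : Set Ω}
    (hA : MeasurableSet A) (hB : MeasurableSet B) (hAf : μ A ≠ ⊤) (hBf : μ B ≠ ⊤) :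
    ∃ (P : ℕ → Set Ω) (g : ℕ → G), (∀ n, MeasurableSet (P n)) ∧ (∀ n, P n ⊆ A) ∧
      (∀ n, g n • P n ⊆ B) ∧ Pairwise (fun i j => Disjoint (P i) (P j)) ∧
      Pairwise (fun i j => Disjoint (g i • P i) (g j • P j)) ∧
      (μ (A \ ⋃ n, P n) = 0 ∨ μ (B \ ⋃ n, g n • P n) = 0) := by
  classical
  have key : ∀ p : Set Ω × Set Ω, ∃ g : G, μ p.1 ≠ ⊤ →
      ∀ g' : G, μ (mv g' p.1 p.2) ≤ 2 * μ (mv g p.1 p.2) := by
    intro p
    by_cases hp : μ p.1 ≠ ⊤
    · by_cases h0 : (⨆ g' : G, μ (mv g' p.1 p.2)) = 0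
      · refine ⟨1, fun _ g' => ?_⟩
        have h1 : μ (mv g' p.1 p.2) = 0 := le_antisymm (h0 ▸ le_iSup (fun g' : G => μ (mv g' p.1 p.2)) g') bot_le
        rw [h1]
        exact bot_le
      · have hs : (⨆ g' : G, μ (mv g' p.1 p.2)) ≠ ⊤ :=
          ne_top_of_le_ne_top hp (iSup_le fun g' => measure_mono fun x hx => hx.1)
        obtain ⟨g, hg⟩ := lt_iSup_iff.1 (ENNReal.half_lt_self h0 hs)
        refine ⟨g, fun _ g' => (le_iSup (fun g' : G => μ (mv g' p.1 p.2)) g').trans ?_⟩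
        rw [ENNReal.div_lt_iff (Or.inl (by norm_num)) (Or.inl (by norm_num))] at hg
        rw [mul_comm]
        exact hg.le
    · exact ⟨1, fun h => absurd h hp⟩
  choose G0 hG0 using key
  let nx : Set Ω × Set Ω → Set Ω × Set Ω := fun p =>
    (p.1 \ mv (G0 p) p.1 p.2, p.2 \ G0 p • mv (G0 p) p.1 p.2)
  let S : ℕ → Set Ω × Set Ω := fun n => nx^[n] (A, B)
  have hS0 : S 0 = (A, B) := rfl
  have hS : ∀ n, S (n + 1) = nx (S n) := fun n => Function.iterate_succ_apply' nx n (A, B)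
  have hmeas : ∀ n, MeasurableSet (S n).1 ∧ MeasurableSet (S n).2 := by
    intro n
    induction n with
    | zero => exact ⟨hA, hB⟩
    | succ n ih =>
      rw [hS]
      exact ⟨ih.1.diff (mv_meas ih.1 ih.2), ih.2.diff (meas_smul (mv_meas ih.1 ih.2) _)⟩
  have hanti : ∀ n m, n ≤ m → (S m).1 ⊆ (S n).1 ∧ (S m).2 ⊆ (S n).2 := by
    intro n m h
    induction h with
    | refl => exact ⟨Subset.rfl, Subset.rfl⟩
    | step h ih =>
      rw [hS]
      exact ⟨sdiff_subset.trans ih.1, sdiff_subset.trans ih.2⟩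
  have hle : ∀ n, (S n).1 ⊆ A ∧ (S n).2 ⊆ B := fun n => hanti 0 n (Nat.zero_le n)
  let P : ℕ → Set Ω := fun n => mv (G0 (S n)) (S n).1 (S n).2
  let g : ℕ → G := fun n => G0 (S n)
  have hPm : ∀ n, MeasurableSet (P n) := fun n => mv_meas (hmeas n).1 (hmeas n).2
  have hPS : ∀ n, P n ⊆ (S n).1 := fun n x hx => hx.1
  have hgPS : ∀ n, g n • P n ⊆ (S n).2 := by
    rintro n _ ⟨x, hx, rfl⟩
    exact hx.2
  have hPn : ∀ n, Disjoint (P n) (S (n + 1)).1 := by
    intro n
    rw [hS]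
    exact disjoint_sdiff_right
  have hgPn : ∀ n, Disjoint (g n • P n) (S (n + 1)).2 := by
    intro n
    rw [hS]
    exact disjoint_sdiff_right
  have hPd : Pairwise (fun i j => Disjoint (P i) (P j)) := by
    apply (pairwise_disjoint_on P).2
    intro m n hmn
    exact (hPn m).mono_right ((hPS n).trans (hanti (m + 1) n hmn).1)
  have hgPd : Pairwise (fun i j => Disjoint (g i • P i) (g j • P j)) := by
    apply (pairwise_disjoint_on (fun i => g i • P i)).2
    intro m n hmn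
    exact (hgPn m).mono_right ((hgPS n).trans (hanti (m + 1) n hmn).2)
  have hAS : ∀ n, A \ (⋃ n, P n) ⊆ (S n).1 := by
    intro n
    induction n with
    | zero => exact sdiff_subset
    | succ n ih =>
      rw [hS]
      exact fun x hx => ⟨ih hx, fun h => hx.2 (mem_iUnion.2 ⟨n, h⟩)⟩
  have hBS : ∀ n, B \ (⋃ n, g n • P n) ⊆ (S n).2 := by
    intro n
    induction n with
    | zero => exact sdiff_subset
    | succ n ih =>
      rw [hS]
      exact fun x hx => ⟨ih hx, fun h => hx.2 (mem_iUnion.2 ⟨n, h⟩)⟩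
  refine ⟨P, g, hPm, fun n => (hPS n).trans (hle n).1, fun n => (hgPS n).trans (hle n).2, hPd,
    hgPd, ?_⟩
  by_contra hcon
  push Not at hcon
  have hmA : MeasurableSet (A \ ⋃ n, P n) := hA.diff (MeasurableSet.iUnion hPm)
  have hmB : MeasurableSet (B \ ⋃ n, g n • P n) :=
    hB.diff (MeasurableSet.iUnion fun n => meas_smul (hPm n) _)
  obtain ⟨h, hh⟩ := hμ.meet hmA hmB (pos_iff_ne_zero.2 hcon.1) (pos_iff_ne_zero.2 hcon.2)
    (ne_top_of_le_ne_top hAf (measure_mono sdiff_subset))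
    (ne_top_of_le_ne_top hBf (measure_mono sdiff_subset))
  set δ := μ (mv h (A \ ⋃ n, P n) (B \ ⋃ n, g n • P n)) with hδ
  have h1 : ∀ n, δ / 2 ≤ μ (P n) := by
    intro n
    apply ENNReal.div_le_of_le_mul
    rw [mul_comm]
    refine le_trans (measure_mono fun x hx => ?_)
      (hG0 (S n) (ne_top_of_le_ne_top hAf (measure_mono (hle n).1)) h)
    exact ⟨hAS n hx.1, hBS n hx.2⟩
  have h2 : ∑' n, μ (P n) = μ (⋃ n, P n) := (measure_iUnion hPd hPm).symm
  have h3 : μ (⋃ n, P n) ≤ μ A := measure_mono (iUnion_subset fun n => (hPS n).trans (hle n).1)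
  have h4 : ∑' _ : ℕ, δ / 2 = ⊤ :=
    ENNReal.tsum_const_eq_top_of_ne_zero (ENNReal.div_ne_zero.2 ⟨hh.ne', by norm_num⟩)
  have h5 : (⊤ : ℝ≥0∞) ≤ μ A := by
    rw [← h4]
    exact (ENNReal.tsum_le_tsum h1).trans (h2.le.trans h3)
  exact hAf (top_le_iff.1 h5)

/-- Almost all of `A` embeds in `B` when `μ A ≤ μ B < ∞`. -/
theorem almost (μ : Measure Ω) [SMulInvariantMeasure G Ω μ] (hμ : Good G μ) {A B : Set Ω}
    (hA : MeasurableSet A) (hB : MeasurableSet B) (hAB : μ A ≤ μ B) (hBf : μ B ≠ ⊤) :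
    ∃ (P : ℕ → Set Ω) (g : ℕ → G), (∀ n, MeasurableSet (P n)) ∧ (∀ n, P n ⊆ A) ∧
      (∀ n, g n • P n ⊆ B) ∧ Pairwise (fun i j => Disjoint (P i) (P j)) ∧
      Pairwise (fun i j => Disjoint (g i • P i) (g j • P j)) ∧ μ (A \ ⋃ n, P n) = 0 := by
  have hAf : μ A ≠ ⊤ := ne_top_of_le_ne_top hBf hAB
  obtain ⟨P, g, h1, h2, h3, h4, h5, h6⟩ := exhaust μ hμ hA hB hAf hBf
  refine ⟨P, g, h1, h2, h3, h4, h5, ?_⟩
  rcases h6 with h6 | h6
  · exact h6
  have hP : μ (⋃ n, g n • P n) = μ (⋃ n, P n) := by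
    rw [measure_iUnion h5 (fun n => meas_smul (h1 n) _), measure_iUnion h4 h1]
    simp [measure_smul]
  have hPA : (⋃ n, P n) ⊆ A := iUnion_subset h2
  have hPB : (⋃ n, g n • P n) ⊆ B := iUnion_subset h3
  have hm : MeasurableSet (⋃ n, g n • P n) := MeasurableSet.iUnion fun n => meas_smul (h1 n) _
  have h7 : μ B ≤ μ (⋃ n, g n • P n) := by
    have := measure_add_sdiff (μ := μ) hm.nullMeasurableSet B
    rw [h6, add_zero, union_eq_right.2 hPB] at this
    exact this.symm.le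
  rw [measure_sdiff hPA (MeasurableSet.iUnion h1).nullMeasurableSet
    (ne_top_of_le_ne_top hAf (measure_mono hPA))]
  exact tsub_eq_zero_of_le (hAB.trans (h7.trans hP.le))


/-- The image of a packing. -/
theorem pk_image (μ : Measure Ω) [SMulInvariantMeasure G Ω μ] {Z Y : Set Ω} (h : Pk G Z Y) :
    ∃ W ⊆ Y, MeasurableSet W ∧ μ W = μ Z ∧ Pk G Z W := by
  obtain ⟨ι, hι, P, g, h1, h2, h3, h4, h5⟩ := h
  refine ⟨⋃ i, g i • P i, iUnion_subset h5,
    MeasurableSet.iUnion fun i => meas_smul (h1 i) (g i), ?_, ι, hι, P, g, h1, h2, h3, h4,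
    fun i => subset_iUnion (fun i => g i • P i) i⟩
  rw [measure_iUnion h4 (fun i => meas_smul (h1 i) (g i)), ← h3, measure_iUnion h2 h1]
  simp [measure_smul]

/-- the part of the union of the `P n` whose image is in `W` -/
def bk (P : ℕ → Set Ω) (g : ℕ → G) (W : Set Ω) : Set Ω := ⋃ n, mv (g n) (P n) W

theorem bk_meas {P : ℕ → Set Ω} {g : ℕ → G} {W : Set Ω} (hP : ∀ n, MeasurableSet (P n))
    (hW : MeasurableSet W) : MeasurableSet (bk P g W) :=
  MeasurableSet.iUnion fun n => mv_meas (hP n) hW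

theorem bk_null (μ : Measure Ω) [SMulInvariantMeasure G Ω μ] {P : ℕ → Set Ω} {g : ℕ → G} {W : Set Ω}
    (hW : μ W = 0) : μ (bk P g W) = 0 := by
  refine measure_iUnion_null fun n => ?_
  have h1 : mv (g n) (P n) W ⊆ (g n)⁻¹ • W := by
    intro x hx
    rw [mem_smul_set_iff_inv_smul_mem, inv_inv]
    exact hx.2
  refine measure_mono_null h1 ?_
  rw [measure_smul, hW]

theorem bk_disj {P : ℕ → Set Ω} {g : ℕ → G} {W W' : Set Ω}
    (hP : Pairwise (fun i j => Disjoint (P i) (P j))) (hW : Disjoint W W') :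
    Disjoint (bk P g W) (bk P g W') := by
  rw [Set.disjoint_left]
  intro x hx hx'
  obtain ⟨n, hn⟩ := mem_iUnion.1 hx
  obtain ⟨m, hm⟩ := mem_iUnion.1 hx'
  have hnm : n = m := by
    by_contra hne
    exact (Set.disjoint_left.1 (hP hne)) hn.1 hm.1
  subst hnm
  exact (Set.disjoint_left.1 hW) hn.2 hm.2

/-- Embedding of sets of finite measure, up to the case of equality. -/
theorem embed_fin (μ : Measure Ω) [SMulInvariantMeasure G Ω μ] (hμ : Good G μ) {A B : Set Ω}
    (hA : MeasurableSet A) (hB : MeasurableSet B) (hAB : μ A ≤ μ B) (hBf : μ B ≠ ⊤)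
    (hBi : (interior B).Nonempty) : Pk G A B := by
  classical
  obtain ⟨P, g, h1, h2, h3, h4, h5, h6⟩ := almost μ hμ hA hB hAB hBf
  set N : Set Ω := A \ ⋃ n, P n with hN
  have hNm : MeasurableSet N := hA.diff (MeasurableSet.iUnion h1)
  have hPA : (⋃ n, P n) ⊆ A := iUnion_subset h2
  rcases N.eq_empty_or_nonempty with hNe | hNne
  · have h7 : (⋃ n, P n) = A := by
      apply Subset.antisymm hPA
      exact sdiff_eq_empty.1 hNe
    exact ⟨ℕ, inferInstance, P, g, h1, h4, h7, h5, h3⟩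
  obtain ⟨O, hOo, hOne, hOB, hOd⟩ := hμ.seq h6 hNne isOpen_interior hBi
  have T : ∀ (p : {N : Set Ω // MeasurableSet N ∧ μ N = 0}) (k : ℕ),
      ∃ W ⊆ O k, MeasurableSet W ∧ μ W = 0 ∧ Pk G p.1 W := by
    intro p k
    obtain ⟨W, hW1, hW2, hW3, hW4⟩ := pk_image μ (hμ.pack p.2.1 p.2.2 (hOo k) (hOne k))
    exact ⟨W, hW1, hW2, hW3.trans p.2.2, hW4⟩
  choose W hWO hWm hW0 hWP using T
  let M : ℕ → {N : Set Ω // MeasurableSet N ∧ μ N = 0} := fun n =>
    Nat.rec ⟨N, hNm, h6⟩ (fun k p => ⟨bk P g (W p k), bk_meas h1 (hWm p k), bk_null μ (hW0 p k)⟩) n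
  have hM0 : (M 0).1 = N := rfl
  have hMs : ∀ k, (M (k + 1)).1 = bk P g (W (M k) k) := fun k => rfl
  set V : ℕ → Set Ω := fun k => W (M k) k with hV
  have hVO : ∀ k, V k ⊆ O k := fun k => hWO (M k) k
  have hVm : ∀ k, MeasurableSet (V k) := fun k => hWm (M k) k
  have hVP : ∀ k, Pk G (M k).1 (V k) := fun k => hWP (M k) k
  have hVd : Pairwise (fun i j => Disjoint (V i) (V j)) := fun i j hij =>
    (hOd hij).mono (hVO i) (hVO j)
  have hMd : Pairwise (fun i j => Disjoint (M i).1 (M j).1) := by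
    apply (pairwise_disjoint_on fun i => (M i).1).2
    intro m n hmn
    obtain ⟨n', rfl⟩ : ∃ n', n = n' + 1 := ⟨n - 1, by omega⟩
    rw [hMs]
    cases m with
    | zero =>
      rw [hM0, Set.disjoint_left]
      rintro x hx hx'
      obtain ⟨i, hi⟩ := mem_iUnion.1 hx'
      exact hx.2 (mem_iUnion.2 ⟨i, hi.1⟩)
    | succ m' =>
      rw [hMs]
      exact bk_disj h4 (hVd (by omega))
  have hMV : Pk G (⋃ k, (M k).1) (⋃ k, V k) := Pk.iUnion hMd hVd hVP
  set R : Set Ω := (⋃ n, P n) \ ⋃ k, bk P g (V k) with hR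
  have hbkm : MeasurableSet (⋃ k, bk P g (V k)) := MeasurableSet.iUnion fun k => bk_meas h1 (hVm k)
  have hRP : Pk G R (B \ ⋃ k, V k) := by
    refine ⟨ℕ, inferInstance, fun n => P n \ ⋃ k, bk P g (V k), g, fun n => (h1 n).diff hbkm, ?_,
      ?_, ?_, ?_⟩
    · exact fun i j hij => (h4 hij).mono sdiff_subset sdiff_subset
    · rw [hR, iUnion_sdiff]
    · exact fun i j hij => (h5 hij).mono (smul_set_mono sdiff_subset) (smul_set_mono sdiff_subset)
    · rintro n _ ⟨x, hx, rfl⟩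
      refine ⟨h3 n ⟨x, hx.1, rfl⟩, fun h => ?_⟩
      obtain ⟨k, hk⟩ := mem_iUnion.1 h
      exact hx.2 (mem_iUnion.2 ⟨k, mem_iUnion.2 ⟨n, hx.1, hk⟩⟩)
  have hRM : Disjoint R (⋃ k, (M k).1) := by
    rw [Set.disjoint_left]
    intro x hx hx'
    obtain ⟨k, hk⟩ := mem_iUnion.1 hx'
    cases k with
    | zero =>
      rw [hM0] at hk
      exact hk.2 hx.1
    | succ k =>
      rw [hMs] at hk
      exact hx.2 (mem_iUnion.2 ⟨k, hk⟩)
  have hfin := Pk.union hRM disjoint_sdiff_left hRP hMV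
  refine hfin.mono (fun x hx => ?_) hA (union_subset sdiff_subset (iUnion_subset fun k =>
    (hVO k).trans ((hOB k).trans interior_subset)))
  by_cases hxP : x ∈ ⋃ n, P n
  · by_cases hxb : x ∈ ⋃ k, bk P g (V k)
    · right
      obtain ⟨k, hk⟩ := mem_iUnion.1 hxb
      exact mem_iUnion.2 ⟨k + 1, by rw [hMs]; exact hk⟩
    · exact Or.inl ⟨hxP, hxb⟩
  · right
    exact mem_iUnion.2 ⟨0, by rw [hM0]; exact ⟨hx, hxP⟩⟩

/-- `A` is covered by countably many Borel sets of finite measure. -/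
def SigmaFiniteSet (μ : Measure Ω) (A : Set Ω) : Prop :=
  ∃ S : ℕ → Set Ω, (∀ n, MeasurableSet (S n) ∧ μ (S n) < ⊤) ∧ A ⊆ ⋃ n, S n

/-- Embedding into sets of infinite measure. -/
theorem embed_inf [LocallyCompactSpace Ω] (μ : Measure Ω) [IsFiniteMeasureOnCompacts μ] [SMulInvariantMeasure G Ω μ] (hμ : Good G μ) {A B : Set Ω}
    (hA : MeasurableSet A) (hB : MeasurableSet B) (hAs : SigmaFiniteSet μ A)
    (hBs : SigmaFiniteSet μ B) (hBf : μ B = ⊤) (hBi : (interior B).Nonempty) : Pk G A B := by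
  classical
  obtain ⟨S, hS, hAS⟩ := hAs
  obtain ⟨S', hS', hBS⟩ := hBs
  -- a small open subset of `B`
  obtain ⟨b, hb⟩ := hBi
  obtain ⟨K, hK1, hK2, hK3⟩ := local_compact_nhds (isOpen_interior.mem_nhds hb)
  set V : Set Ω := interior K with hVdef
  have hVo : IsOpen V := isOpen_interior
  have hVne : V.Nonempty := ⟨b, mem_interior_iff_mem_nhds.2 hK1⟩
  have hVB : V ⊆ B := interior_subset.trans (hK2.trans interior_subset)
  have hVf : μ V ≠ ⊤ := ne_top_of_le_ne_top hK3.measure_lt_top.ne (measure_mono interior_subset)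
  -- the pieces of `A`
  set D : ℕ → Set Ω := fun n => A ∩ disjointed S n with hD
  have hDm : ∀ n, MeasurableSet (D n) := fun n =>
    hA.inter (MeasurableSet.disjointed (fun n => (hS n).1) n)
  have hDd : Pairwise (fun i j => Disjoint (D i) (D j)) := fun i j hij =>
    (disjoint_disjointed S hij).mono inter_subset_right inter_subset_right
  have hDA : (⋃ n, D n) = A := by
    rw [hD, ← inter_iUnion, iUnion_disjointed]
    exact inter_eq_left.2 hAS
  have hDf : ∀ n, μ (D n) ≠ ⊤ := fun n =>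
    ne_top_of_le_ne_top (hS n).2.ne (measure_mono (inter_subset_right.trans (disjointed_subset S n)))
  -- the increasing pieces of `B`
  set T : ℕ → Set Ω := fun k => (B \ V) ∩ ⋃ i ∈ Finset.range k, S' i with hT
  have hTm : ∀ k, MeasurableSet (T k) := fun k =>
    (hB.diff hVo.measurableSet).inter (Finset.measurableSet_biUnion _ fun i _ => (hS' i).1)
  have hTmono : Monotone T := by
    intro k l hkl
    apply inter_subset_inter_right
    apply biUnion_subset_biUnion_left
    intro i hi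
    simp only [Finset.coe_range, Set.mem_Iio] at hi ⊢
    omega
  have hTf : ∀ k, μ (T k) ≠ ⊤ := by
    intro k
    refine ne_top_of_le_ne_top ?_ (measure_mono inter_subset_right)
    refine ne_top_of_le_ne_top ?_ (measure_biUnion_finset_le _ _)
    exact ENNReal.sum_ne_top.2 fun i _ => (hS' i).2.ne
  have hTU : (⋃ k, T k) = B \ V := by
    apply Subset.antisymm (iUnion_subset fun k => inter_subset_left)
    intro x hx
    obtain ⟨i, hi⟩ := mem_iUnion.1 (hBS hx.1)
    refine mem_iUnion.2 ⟨i + 1, hx, ?_⟩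
    exact mem_biUnion (by simp) hi
  have hBV : μ (B \ V) = ⊤ := by
    have h1 : μ B ≤ μ V + μ (B \ V) := by
      refine (measure_mono ?_).trans (measure_union_le _ _)
      intro x hx
      by_cases h : x ∈ V
      · exact Or.inl h
      · exact Or.inr ⟨hx, h⟩
    rw [hBf] at h1
    exact (ENNReal.add_eq_top.1 (top_le_iff.1 h1)).resolve_left hVf
  have hTlim : Tendsto (fun k => μ (T k)) atTop (𝓝 ⊤) := by
    rw [← hBV, ← hTU]
    exact tendsto_measure_iUnion_atTop hTmono
  have hex : ∀ (k n : ℕ), ∃ k' ≥ k, μ (D n) ≤ μ (T k' \ T k) := by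
    intro k n
    have h1 : ∀ᶠ k' in atTop, μ (D n) + μ (T k) < μ (T k') :=
      (tendsto_order.1 hTlim).1 _ (ENNReal.add_lt_top.2 ⟨(hDf n).lt_top, (hTf k).lt_top⟩)
    obtain ⟨k', h2, h3⟩ := (h1.and (eventually_ge_atTop k)).exists
    refine ⟨k', h3, ?_⟩
    rw [measure_sdiff (hTmono h3) (hTm k).nullMeasurableSet (hTf k)]
    exact ENNReal.le_sub_of_add_le_right (hTf k) h2.le
  choose nk hnk1 hnk2 using hex
  let κ : ℕ → ℕ := fun n => Nat.rec 0 (fun m k => nk k m) n
  have hκs : ∀ n, κ (n + 1) = nk (κ n) n := fun n => rfl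
  have hκmono : Monotone κ := monotone_nat_of_le_succ fun n => hnk1 (κ n) n
  set C : ℕ → Set Ω := fun n => T (κ (n + 1)) \ T (κ n) with hC
  have hCm : ∀ n, MeasurableSet (C n) := fun n => (hTm _).diff (hTm _)
  have hCd : Pairwise (fun i j => Disjoint (C i) (C j)) := by
    apply (pairwise_disjoint_on C).2
    intro m n hmn
    rw [Set.disjoint_left]
    intro x hx hx'
    exact hx'.2 (hTmono (hκmono hmn) hx.1)
  have hCf : ∀ n, μ (C n) ≠ ⊤ := fun n => ne_top_of_le_ne_top (hTf _) (measure_mono sdiff_subset)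
  have hDC : ∀ n, μ (D n) ≤ μ (C n) := fun n => hnk2 (κ n) n
  have hCB : (⋃ n, C n) ⊆ B \ V := iUnion_subset fun n => sdiff_subset.trans inter_subset_left
  have hal := fun n => almost μ hμ (hDm n) (hCm n) (hDC n) (hCf n)
  choose P g h1 h2 h3 h4 h5 h6 using hal
  have hPC : ∀ n, Pk G (⋃ i, P n i) (C n) := fun n =>
    ⟨ℕ, inferInstance, P n, g n, h1 n, h4 n, rfl, h5 n, h3 n⟩
  have hPD : ∀ n, (⋃ i, P n i) ⊆ D n := fun n => iUnion_subset (h2 n)
  have hPk : Pk G (⋃ n, ⋃ i, P n i) (⋃ n, C n) :=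
    Pk.iUnion (fun i j hij => (hDd hij).mono (hPD i) (hPD j)) hCd hPC
  set N : Set Ω := A \ ⋃ n, ⋃ i, P n i with hN
  have hNm : MeasurableSet N :=
    hA.diff (MeasurableSet.iUnion fun n => MeasurableSet.iUnion fun i => h1 n i)
  have hN0 : μ N = 0 := by
    have h7 : N ⊆ ⋃ n, D n \ ⋃ i, P n i := by
      intro x hx
      have hxD : x ∈ ⋃ n, D n := by rw [hDA]; exact hx.1
      obtain ⟨n, hn⟩ := mem_iUnion.1 hxD
      exact mem_iUnion.2 ⟨n, hn, fun h => hx.2 (mem_iUnion.2 ⟨n, h⟩)⟩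
    exact measure_mono_null h7 (measure_iUnion_null h6)
  have hNV : Pk G N V := hμ.pack hNm hN0 hVo hVne
  have hfin := Pk.union (disjoint_sdiff_right (s := ⋃ n, ⋃ i, P n i) (t := A))
    (disjoint_sdiff_left.mono_left hCB) hPk hNV
  refine hfin.mono (fun x hx => ?_) hA (union_subset (hCB.trans sdiff_subset) hVB)
  by_cases hxP : x ∈ ⋃ n, ⋃ i, P n i
  · exact Or.inl hxP
  · exact Or.inr ⟨hx, hxP⟩


/-- Embedding of a set of finite or sigma-finite measure. -/
theorem embed [LocallyCompactSpace Ω] (μ : Measure Ω) [IsFiniteMeasureOnCompacts μ] [SMulInvariantMeasure G Ω μ] (hμ : Good G μ) {A B C : Set Ω}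
    (hA : MeasurableSet A) (hAs : SigmaFiniteSet μ A)
    (hC : MeasurableSet C) (hCB : C ⊆ B) (hCs : SigmaFiniteSet μ C) (hAC : μ A ≤ μ C)
    (hBi : (interior B).Nonempty) : Pk G A B := by
  obtain ⟨b, hb⟩ := hBi
  obtain ⟨K, hK1, hK2, hK3⟩ := local_compact_nhds (isOpen_interior.mem_nhds hb)
  have hKB : K ⊆ B := hK2.trans interior_subset
  have hKm : MeasurableSet K := hK3.measurableSet
  have hi : (interior (C ∪ K)).Nonempty :=
    ⟨b, interior_mono subset_union_right (mem_interior_iff_mem_nhds.2 hK1)⟩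
  have hle : μ A ≤ μ (C ∪ K) := hAC.trans (measure_mono subset_union_left)
  have hCKB : C ∪ K ⊆ B := union_subset hCB hKB
  by_cases hf : μ (C ∪ K) = ⊤
  · refine (embed_inf μ hμ hA (hC.union hKm) hAs ?_ hf hi).mono Subset.rfl hA hCKB
    obtain ⟨S, hS, hCS⟩ := hCs
    refine ⟨fun n => S n ∪ K, fun n => ⟨(hS n).1.union hKm, ?_⟩, ?_⟩
    · exact (measure_union_le _ _).trans_lt (ENNReal.add_lt_top.2 ⟨(hS n).2, hK3.measure_lt_top⟩)
    · apply union_subset
      · exact hCS.trans (iUnion_mono fun n => subset_union_left)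
      · exact subset_union_right.trans (subset_iUnion (fun n => S n ∪ K) 0)
  · exact (embed_fin μ hμ hA (hC.union hKm) hle hf hi).mono Subset.rfl hA hCKB

/-! ### The theorem of Schroeder and Bernstein -/

/-- the image of `C` -/
def fw (P : ℕ → Set Ω) (g : ℕ → G) (C : Set Ω) : Set Ω := ⋃ n, g n • (P n ∩ C)

theorem fw_mem {P : ℕ → Set Ω} {g : ℕ → G} {C : Set Ω} {y : Ω} :
    y ∈ fw P g C ↔ ∃ n, ∃ x ∈ P n, x ∈ C ∧ g n • x = y := by
  constructor
  · intro h
    obtain ⟨n, x, hx, hy⟩ := mem_iUnion.1 h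
    exact ⟨n, x, hx.1, hx.2, hy⟩
  · rintro ⟨n, x, hx, hxC, rfl⟩
    exact mem_iUnion.2 ⟨n, x, ⟨hx, hxC⟩, rfl⟩

theorem fw_meas {P : ℕ → Set Ω} {g : ℕ → G} {C : Set Ω} (hP : ∀ n, MeasurableSet (P n))
    (hC : MeasurableSet C) : MeasurableSet (fw P g C) :=
  MeasurableSet.iUnion fun n => meas_smul ((hP n).inter hC) _

theorem cbe_fw {P : ℕ → Set Ω} {g : ℕ → G} {C : Set Ω} (hP : ∀ n, MeasurableSet (P n))
    (hPd : Pairwise (fun i j => Disjoint (P i) (P j)))
    (hgP : Pairwise (fun i j => Disjoint (g i • P i) (g j • P j))) (hC : MeasurableSet C)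
    (hCP : C ⊆ ⋃ n, P n) : CountablyBorelEquidecomposable G C (fw P g C) := by
  refine ⟨fun n => P n ∩ C, fun n => g n • (P n ∩ C), g, fun n => (hP n).inter hC,
    fun n => meas_smul ((hP n).inter hC) _,
    fun i j hij => (hPd hij).mono inter_subset_left inter_subset_left,
    fun i j hij => (hgP hij).mono (smul_set_mono inter_subset_left) (smul_set_mono inter_subset_left),
    ?_, rfl, fun n => rfl⟩
  rw [← iUnion_inter]
  exact inter_eq_right.2 hCP

theorem cbe_symm {A B : Set Ω} (h : CountablyBorelEquidecomposable G A B) :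
    CountablyBorelEquidecomposable G B A := by
  obtain ⟨P, Q, g, h1, h2, h3, h4, h5, h6, h7⟩ := h
  refine ⟨Q, P, fun n => (g n)⁻¹, h2, h1, h4, h3, h6, h5, fun n => ?_⟩
  rw [← h7 n, image_image]
  simp

theorem cbe_union {A B A' B' : Set Ω} (hA : Disjoint A A') (hB : Disjoint B B')
    (h : CountablyBorelEquidecomposable G A B) (h' : CountablyBorelEquidecomposable G A' B') :
    CountablyBorelEquidecomposable G (A ∪ A') (B ∪ B') := by
  obtain ⟨P, Q, g, h1, h2, h3, h4, h5, h6, h7⟩ := h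
  obtain ⟨P', Q', g', h1', h2', h3', h4', h5', h6', h7'⟩ := h'
  have hPA : ∀ n, P n ⊆ A := fun n => h5 ▸ subset_iUnion P n
  have hPA' : ∀ n, P' n ⊆ A' := fun n => h5' ▸ subset_iUnion P' n
  have hQB : ∀ n, Q n ⊆ B := fun n => h6 ▸ subset_iUnion Q n
  have hQB' : ∀ n, Q' n ⊆ B' := fun n => h6' ▸ subset_iUnion Q' n
  let e := Equiv.natSumNatEquivNat
  have hu : ∀ (X Y : ℕ → Set Ω), (⋃ n, Sum.elim X Y (e.symm n)) = (⋃ n, X n) ∪ ⋃ n, Y n := by
    intro X Y
    rw [e.symm.surjective.iUnion_comp (Sum.elim X Y)]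
    ext x
    simp only [mem_iUnion, Sum.exists, Sum.elim_inl, Sum.elim_inr, mem_union]
  have hd : ∀ (X Y : ℕ → Set Ω) (C D : Set Ω), Disjoint C D → (∀ n, X n ⊆ C) → (∀ n, Y n ⊆ D) →
      Pairwise (fun i j => Disjoint (X i) (X j)) → Pairwise (fun i j => Disjoint (Y i) (Y j)) →
      Pairwise (fun i j => Disjoint (Sum.elim X Y (e.symm i)) (Sum.elim X Y (e.symm j))) := by
    intro X Y C D hCD hX hY hXd hYd i j hij
    have hne : e.symm i ≠ e.symm j := fun h => hij (e.symm.injective h)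
    rcases hi : e.symm i with a | a <;> rcases hj : e.symm j with b | b
    · rw [hi, hj] at hne
      exact hXd (fun h => hne (by rw [h]))
    · exact hCD.mono (hX a) (hY b)
    · exact hCD.symm.mono (hY a) (hX b)
    · rw [hi, hj] at hne
      exact hYd (fun h => hne (by rw [h]))
  refine ⟨fun n => Sum.elim P P' (e.symm n), fun n => Sum.elim Q Q' (e.symm n),
    fun n => Sum.elim g g' (e.symm n), fun n => ?_, fun n => ?_, hd P P' A A' hA hPA hPA' h3 h3',
    hd Q Q' B B' hB hQB hQB' h4 h4', by rw [hu, h5, h5'], by rw [hu, h6, h6'], fun n => ?_⟩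
  · change MeasurableSet (Sum.elim P P' (e.symm n))
    rcases e.symm n with a | a
    · exact h1 a
    · exact h1' a
  · change MeasurableSet (Sum.elim Q Q' (e.symm n))
    rcases e.symm n with a | a
    · exact h2 a
    · exact h2' a
  · change (fun x => Sum.elim g g' (e.symm n) • x) '' (Sum.elim P P' (e.symm n)) =
      Sum.elim Q Q' (e.symm n)
    rcases e.symm n with a | a
    · exact h7 a
    · exact h7' a

/-- The theorem of Schroeder and Bernstein for countable Borel equidecomposability. -/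
theorem schroeder {A B : Set Ω} (hA : MeasurableSet A) (hB : MeasurableSet B) (h : Pk G A B)
    (h' : Pk G B A) : CountablyBorelEquidecomposable G A B := by
  obtain ⟨F, hFB, P, Q, g, h1, h2, h3, h4, h5, h6, h7⟩ := h.toEquidecomposable
  obtain ⟨H, hHA, P', Q', k, h1', h2', h3', h4', h5', h6', h7'⟩ := h'.toEquidecomposable
  have hgP : Pairwise (fun i j => Disjoint (g i • P i) (g j • P j)) := by
    intro i j hij
    have : Disjoint (Q i) (Q j) := h4 hij
    rw [← h7 i, ← h7 j] at this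
    exact this
  have hkP : Pairwise (fun i j => Disjoint (k i • P' i) (k j • P' j)) := by
    intro i j hij
    have : Disjoint (Q' i) (Q' j) := h4' hij
    rw [← h7' i, ← h7' j] at this
    exact this
  have hgB : ∀ n, g n • P n ⊆ B := by
    intro n
    have : (fun x => g n • x) '' P n ⊆ B := by
      rw [h7 n]
      exact (h6 ▸ subset_iUnion Q n : Q n ⊆ F).trans hFB
    exact this
  have hkA : ∀ n, k n • P' n ⊆ A := by
    intro n
    have : (fun x => k n • x) '' P' n ⊆ A := by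
      rw [h7' n]
      exact (h6' ▸ subset_iUnion Q' n : Q' n ⊆ H).trans hHA
    exact this
  have hfB : ∀ C, fw P g C ⊆ B := fun C => iUnion_subset fun n =>
    (smul_set_mono inter_subset_left).trans (hgB n)
  have hfA : ∀ C, fw P' k C ⊆ A := fun C => iUnion_subset fun n =>
    (smul_set_mono inter_subset_left).trans (hkA n)
  let C : ℕ → Set Ω := fun n => Nat.rec (A \ fw P' k B) (fun _ X => fw P' k (fw P g X)) n
  have hC0 : C 0 = A \ fw P' k B := rfl
  have hCs : ∀ n, C (n + 1) = fw P' k (fw P g (C n)) := fun n => rfl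
  have hCm : ∀ n, MeasurableSet (C n) := by
    intro n
    induction n with
    | zero => exact hA.diff (fw_meas h1' hB)
    | succ n ih => exact fw_meas h1' (fw_meas h1 ih)
  have hCA : ∀ n, C n ⊆ A := by
    intro n
    cases n with
    | zero => exact sdiff_subset
    | succ n => exact hfA _
  set X : Set Ω := ⋃ n, C n with hX
  have hXA : X ⊆ A := iUnion_subset hCA
  have hXm : MeasurableSet X := MeasurableSet.iUnion hCm
  have hY : fw P' k (B \ fw P g X) = A \ X := by
    apply Subset.antisymm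
    · intro y hy
      refine ⟨hfA _ hy, fun hyX => ?_⟩
      obtain ⟨n, x, hx, hxB, hxy⟩ := fw_mem.1 hy
      obtain ⟨m, hm⟩ := mem_iUnion.1 hyX
      cases m with
      | zero => exact hm.2 (fw_mem.2 ⟨n, x, hx, hxB.1, hxy⟩)
      | succ m =>
        rw [hCs] at hm
        obtain ⟨n', x', hx', hxB', hxy'⟩ := fw_mem.1 hm
        have hnn : n = n' := by
          by_contra hne
          exact (Set.disjoint_left.1 (hkP hne)) ⟨x, hx, hxy⟩ ⟨x', hx', hxy'⟩
        subst hnn
        have hxx : x = x' := smul_left_cancel _ (hxy.trans hxy'.symm)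
        subst hxx
        apply hxB.2
        obtain ⟨i, z, hz, hzC, hzx⟩ := fw_mem.1 hxB'
        exact fw_mem.2 ⟨i, z, hz, mem_iUnion.2 ⟨m, hzC⟩, hzx⟩
    · rintro y ⟨hyA, hyX⟩
      have h8 : y ∈ fw P' k B := by
        by_contra h9
        exact hyX (mem_iUnion.2 ⟨0, hyA, h9⟩)
      obtain ⟨n, x, hx, hxB, hxy⟩ := fw_mem.1 h8
      refine fw_mem.2 ⟨n, x, hx, ⟨hxB, fun h9 => hyX ?_⟩, hxy⟩
      obtain ⟨i, z, hz, hzX, hzx⟩ := fw_mem.1 h9
      obtain ⟨m, hm⟩ := mem_iUnion.1 hzX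
      refine mem_iUnion.2 ⟨m + 1, ?_⟩
      rw [hCs]
      exact fw_mem.2 ⟨n, x, hx, fw_mem.2 ⟨i, z, hz, hm, hzx⟩, hxy⟩
  have e1 : CountablyBorelEquidecomposable G X (fw P g X) :=
    cbe_fw h1 h3 hgP hXm (hXA.trans h5.symm.subset)
  have e2 : CountablyBorelEquidecomposable G (B \ fw P g X) (A \ X) := by
    have := cbe_fw (C := B \ fw P g X) h1' h3' hkP (hB.diff (fw_meas h1 hXm)) (sdiff_subset.trans h5'.symm.subset)
    rw [hY] at this
    exact this
  have e3 := cbe_union disjoint_sdiff_right disjoint_sdiff_right e1 (cbe_symm e2)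
  rw [union_sdiff_cancel hXA, union_sdiff_cancel (hfB X)] at e3
  exact e3

/-- Equidecomposable sets have the same measure. -/
theorem cbe_measure (μ : Measure Ω) [SMulInvariantMeasure G Ω μ] {A B : Set Ω}
    (h : CountablyBorelEquidecomposable G A B) : μ A = μ B := by
  obtain ⟨P, Q, g, h1, h2, h3, h4, h5, h6, h7⟩ := h
  rw [← h5, ← h6, measure_iUnion h3 h1, measure_iUnion h4 h2]
  refine tsum_congr fun n => ?_
  rw [← h7 n]
  exact (measure_smul μ (g n) (P n)).symm

/-- Sets which are equidecomposable with a sigma-finite set are sigma-finite. -/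
theorem cbe_sigma (μ : Measure Ω) [SMulInvariantMeasure G Ω μ] {A B : Set Ω}
    (h : CountablyBorelEquidecomposable G A B) (hA : SigmaFiniteSet μ A) : SigmaFiniteSet μ B := by
  obtain ⟨P, Q, g, h1, h2, h3, h4, h5, h6, h7⟩ := h
  obtain ⟨S, hS, hAS⟩ := hA
  obtain ⟨e, he⟩ := exists_surjective_nat (ℕ × ℕ)
  refine ⟨fun n => g (e n).1 • (P (e n).1 ∩ S (e n).2), fun n => ⟨meas_smul
    ((h1 _).inter (hS _).1) _, ?_⟩, fun y hy => ?_⟩
  · rw [measure_smul]
    exact (measure_mono inter_subset_right).trans_lt (hS _).2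
  · rw [← h6] at hy
    obtain ⟨n, hn⟩ := mem_iUnion.1 hy
    rw [← h7 n] at hn
    obtain ⟨x, hx, rfl⟩ := hn
    have hxA : x ∈ A := by rw [← h5]; exact mem_iUnion.2 ⟨n, hx⟩
    obtain ⟨m, hm⟩ := mem_iUnion.1 (hAS hxA)
    obtain ⟨l, hl⟩ := he (n, m)
    refine mem_iUnion.2 ⟨l, ?_⟩
    rw [hl]
    exact ⟨x, ⟨hx, hm⟩, rfl⟩

end Eq

end Pool.Agent.H8.HS
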