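import Pool.Agent.H8.HS.Cover

/-!
# Packing null sets of a homogeneous space with compact stabilisers into open sets
-/

set_option autoImplicit false
set_option linter.unusedSectionVars false

open MeasureTheory MeasureTheory.Measure Set Filter Topology
open scoped Pointwise ENNReal NNReal

namespace Pool.Agent.H8.HS

open Pool.Agent.Results.MP_5eb27c_an.PackNull (open_sigma haar_null_of_outer)

section Null

variable {G X : Type*} [Group G] [TopologicalSpace G] [IsTopologicalGroup G]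
  [LocallyCompactSpace G] [T2Space G] [MeasurableSpace G] [BorelSpace G]
  [TopologicalSpace X] [T2Space X] [MulAction G X] [ContinuousSMul G X] [MeasurableSpace X] [BorelSpace X]

theorem pre_sat {x₀ : X} {Q : Set X} {a h : G} (ha : a ∈ (pre x₀ Q : Set G)) (hh : h • x₀ = x₀) :
    a * h ∈ (pre x₀ Q : Set G) := by
  rw [mem_pre, mul_smul, hh]
  exact ha

/-- the image of a saturated set has that set as its preimage -/
theorem pre_image {x₀ : X} {K : Set G} (hK : ∀ a ∈ K, ∀ h : G, h • x₀ = x₀ → a * h ∈ K) :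
    pre x₀ ((fun g : G => g • x₀) '' K) = K := by
  ext a
  constructor
  · rintro ⟨b, hb, hba⟩
    have hba' : b • x₀ = a • x₀ := hba
    have h1 := hK b hb (b⁻¹ * a) (by rw [mul_smul, ← hba', inv_smul_smul])
    simpa using h1
  · intro ha
    exact ⟨a, ha, rfl⟩

/-- A null set inside a compact set is covered by compact subsets whose measures are below any prescribed bounds. -/
theorem coverX (μ : Measure G) [IsHaarMeasure μ] [Regular μ] {x₀ : X}
    (hs : ∀ x : X, ∃ g : G, g • x₀ = x) (ho : IsOpenMap fun g : G => g • x₀)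
    (hst : IsCompact {h : G | h • x₀ = x₀}) {E C : Set X} (hE : μ (pre x₀ E) = 0)
    (hC : IsCompact C) (hEC : E ⊆ C) (δ : ℕ → ℝ≥0∞) (hδ : ∀ n, 0 < δ n) :
    ∃ K : ℕ → Set X, (∀ n, IsCompact (K n) ∧ K n ⊆ C ∧ μ (pre x₀ (K n)) < δ n) ∧ E ⊆ ⋃ n, K n := by
  obtain ⟨K, hK, hEK⟩ := cover μ (MulAction.stabilizer G x₀) hst hE (pre_compact hs ho hst hC)
    (fun a ha => hEC ha) (fun a ha h hh => pre_sat ha hh) (fun a ha h hh => pre_sat ha hh) δ hδ
  refine ⟨fun n => (fun g : G => g • x₀) '' K n, ?_, ?_⟩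
  · intro n
    obtain ⟨h1, h2, h3, h4⟩ := hK n
    refine ⟨h1.image (orbit_cont x₀), ?_, ?_⟩
    · rintro _ ⟨g, hg, rfl⟩
      exact h2 hg
    · show μ (pre x₀ ((fun g : G => g • x₀) '' K n)) < δ n
      rw [pre_image (fun a ha h hh => h4 a ha h hh)]
      exact h3
  · intro x hx
    obtain ⟨g, hg⟩ := hs x
    have hgE : g ∈ (pre x₀ E : Set G) := by rw [mem_pre, hg]; exact hx
    obtain ⟨n, hn⟩ := mem_iUnion.1 (hEK hgE)
    exact mem_iUnion.2 ⟨n, g, hn, hg⟩

theorem pre_smul {x₀ : X} {Q : Set X} (g : G) : (pre x₀ (g • Q) : Set G) = g • pre x₀ Q := by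
  ext a
  rw [mem_pre, mem_smul_set_iff_inv_smul_mem, mem_smul_set_iff_inv_smul_mem, mem_pre, smul_eq_mul, mul_smul]

/-- Inside a nonempty open subset of a space with a nonempty null set there are infinitely many
pairwise disjoint nonempty open sets. -/
theorem exists_open_seq (μ : Measure G) [IsHaarMeasure μ] {x₀ : X} (hs : ∀ x : X, ∃ g : G, g • x₀ = x)
    {E U : Set X} (hE : μ (pre x₀ E) = 0) (hEne : E.Nonempty) (hUo : IsOpen U) (hUne : U.Nonempty) :
    ∃ O : ℕ → Set X, (∀ n, IsOpen (O n)) ∧ (∀ n, (O n).Nonempty) ∧ (∀ n, O n ⊆ U) ∧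
      Pairwise (fun i j => Disjoint (O i) (O j)) := by
  obtain ⟨x1, hx1⟩ := hEne
  obtain ⟨g1, hg1⟩ := hs x1
  have hsing : ∀ y : X, μ (pre x₀ {y}) = 0 := by
    intro y
    obtain ⟨g, hg⟩ := hs y
    have h1 : μ (pre x₀ {x1}) = 0 := measure_mono_null (fun a ha => by
      rw [mem_pre, mem_singleton_iff] at ha
      rw [mem_pre, ha]
      exact hx1) hE
    have h2 : (g * g1⁻¹) • ({x1} : Set X) = {y} := by
      rw [smul_set_singleton, mul_smul, ← hg1, inv_smul_smul, hg]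
    rw [← h2, pre_smul, measure_smul, h1]
  have hpos : 0 < μ (pre x₀ U) := by
    obtain ⟨y, hy⟩ := hUne
    obtain ⟨g, hg⟩ := hs y
    exact (hUo.preimage (orbit_cont x₀)).measure_pos μ ⟨g, by show g • x₀ ∈ U; rw [hg]; exact hy⟩
  have hUinf : U.Infinite := by
    intro hfin
    have h0 : μ (pre x₀ U) = 0 := by
      have h3 : (pre x₀ U : Set G) = ⋃ y ∈ U, pre x₀ {y} := by
        ext a
        simp [mem_pre]
      rw [h3, measure_biUnion_null_iff hfin.countable]
      exact fun y _ => hsing y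
    exact hpos.ne' h0
  have : Infinite U := hUinf.to_subtype
  obtain ⟨O, hOinf, hOo, hOd⟩ := exists_seq_infinite_isOpen_pairwise_disjoint U
  refine ⟨fun n => Subtype.val '' O n, fun n => hUo.isOpenMap_subtype_val _ (hOo n),
    fun n => (hOinf n).nonempty.image _, fun n => ?_, ?_⟩
  · rintro _ ⟨y, -, rfl⟩
    exact y.2
  · intro m n hmn
    exact (disjoint_image_iff Subtype.val_injective).mpr (hOd hmn)

theorem pack_null (μ : Measure G) [IsHaarMeasure μ] [Regular μ] {x₀ : X}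
    (hs : ∀ x : X, ∃ g : G, g • x₀ = x) (ho : IsOpenMap fun g : G => g • x₀)
    (hst : IsCompact {h : G | h • x₀ = x₀}) {E U : Set X}
    (hEm : MeasurableSet E) (hE : μ (pre x₀ E) = 0) (hUo : IsOpen U) (hUne : U.Nonempty) : Pk G E U := by
  classical
  rcases E.eq_empty_or_nonempty with rfl | hEne
  · exact Pk.empty U
  obtain ⟨O, hOo, hOne, hOU, hOd⟩ := exists_open_seq μ hs hE hEne hUo hUne
  obtain ⟨V, hEV, hVo, hVm⟩ := (pre x₀ E : Set G).exists_isOpen_lt_of_lt (μ := μ) 1 (by rw [hE]; exact one_pos)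
  obtain ⟨ι, hι, C, hCc, hVC⟩ := open_sigma μ hVo hVm.ne_top
  obtain ⟨e, he⟩ := Countable.exists_injective_nat (ι × ℕ)
  have hCc' : ∀ i, IsCompact ((fun g : G => g • x₀) '' C i) := fun i => (hCc i).image (orbit_cont x₀)
  have hCp : ∀ i, IsCompact (pre x₀ ((fun g : G => g • x₀) '' C i) : Set G) := fun i =>
    pre_compact hs ho hst (hCc' i)
  have hδ : ∀ p : ι × ℕ, ∃ δ : ℝ≥0∞, 0 < δ ∧
      ∀ K : Set X, IsCompact K → (pre x₀ K : Set G) ⊆ pre x₀ ((fun g : G => g • x₀) '' C p.1) →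
        μ (pre x₀ K) < δ → Pk G K (O (e p)) := fun p =>
    pack_small μ hs ho hst (hCp p.1) (hOo _) (hOne _)
  choose δ hδ0 hδK using hδ
  have hcov : ∀ i : ι, ∃ K : ℕ → Set X,
      (∀ n, IsCompact (K n) ∧ K n ⊆ (fun g : G => g • x₀) '' C i ∧ μ (pre x₀ (K n)) < δ (i, n)) ∧
        E ∩ (fun g : G => g • x₀) '' C i ⊆ ⋃ n, K n := fun i =>
    coverX μ hs ho hst (measure_mono_null (fun a ha => ha.1) hE) (hCc' i) inter_subset_right
      (fun n => δ (i, n)) (fun n => hδ0 (i, n))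
  choose K hK hKcov using hcov
  have hKPk : ∀ p : ι × ℕ, Pk G (K p.1 p.2) (O (e p)) := fun p =>
    hδK p _ (hK p.1 p.2).1 (fun a ha => (hK p.1 p.2).2.1 ha) (hK p.1 p.2).2.2
  have hEK : E ⊆ ⋃ p : ι × ℕ, K p.1 p.2 := by
    intro x hx
    obtain ⟨g, hg⟩ := hs x
    have hgE : g ∈ (pre x₀ E : Set G) := by rw [mem_pre, hg]; exact hx
    obtain ⟨i, hi⟩ := mem_iUnion.mp (hVC (hEV hgE))
    obtain ⟨n, hn⟩ := mem_iUnion.mp (hKcov i ⟨hx, g, hi, hg⟩)
    exact mem_iUnion.mpr ⟨(i, n), hn⟩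
  set Z : ι × ℕ → Set X := fun p => (E ∩ K p.1 p.2) \
    ⋃ q ∈ {q : ι × ℕ | e q < e p}, K q.1 q.2 with hZ
  have hZm : ∀ p, MeasurableSet (Z p) := by
    intro p
    apply (hEm.inter (hK p.1 p.2).1.measurableSet).diff
    apply MeasurableSet.biUnion (to_countable _)
    intro q _
    exact (hK q.1 q.2).1.measurableSet
  have hZd : Pairwise (fun p q => Disjoint (Z p) (Z q)) := by
    intro p q hpq
    rw [Set.disjoint_left]
    intro x hxp hxq
    have hne : e p ≠ e q := fun h => hpq (he h)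
    rcases lt_or_gt_of_ne hne with h | h
    · exact hxq.2 (mem_iUnion₂.mpr ⟨p, h, hxp.1.2⟩)
    · exact hxp.2 (mem_iUnion₂.mpr ⟨q, h, hxq.1.2⟩)
  have hZU : (⋃ p, Z p) = E := by
    apply Subset.antisymm
    · exact iUnion_subset fun p x hx => hx.1.1
    · intro x hx
      have hex : ∃ m : ℕ, ∃ p : ι × ℕ, e p = m ∧ x ∈ K p.1 p.2 := by
        obtain ⟨p, hp⟩ := mem_iUnion.mp (hEK hx)
        exact ⟨e p, p, rfl, hp⟩
      obtain ⟨p, hpm, hpx⟩ := Nat.find_spec hex
      refine mem_iUnion.mpr ⟨p, ⟨hx, hpx⟩, ?_⟩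
      intro hmem
      obtain ⟨q, hq, hqx⟩ := mem_iUnion₂.mp hmem
      have hlt : e q < Nat.find hex := by
        rw [← hpm]
        exact hq
      exact Nat.find_min hex hlt ⟨q, rfl, hqx⟩
  have hZPk : ∀ p, Pk G (Z p) (O (e p)) := fun p =>
    (hKPk p).mono (fun x hx => hx.1.2) (hZm p) Subset.rfl
  have hfin := Pk.iUnion (G := G) hZd (fun p q hpq => hOd (fun h => hpq (he h))) hZPk
  rw [hZU] at hfin
  exact hfin.mono Subset.rfl hEm (iUnion_subset fun p => hOU _)

end Null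

end Pool.Agent.H8.HS
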