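import Pool.Graph.R_seed8.Results.MP_5eb27c_an.PackNull

/-!
# Packing null sets of homogeneous spaces into open sets: the packing relation

The relation `Pk` of the library module `PackNull` for an action of a group on a space, and the packing induction.
-/

set_option autoImplicit false
set_option linter.unusedSectionVars false

open MeasureTheory MeasureTheory.Measure Set Filter Topology
open scoped Pointwise ENNReal NNReal

namespace Pool.Agent.H8.HS

section Pk

variable {G X : Type*} [Group G] [TopologicalSpace G] [TopologicalSpace X] [MulAction G X]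
  [ContinuousSMul G X] [MeasurableSpace X] [BorelSpace X]

/-- `Z` splits into countably many Borel pieces that elements of the group carry to pairwise disjoint
subsets of `Y`. -/
def Pk (G : Type*) {X : Type*} [Group G] [MulAction G X] [MeasurableSpace X] (Z Y : Set X) : Prop :=
  ∃ (ι : Type) (_ : Countable ι) (P : ι → Set X) (g : ι → G),
    (∀ i, MeasurableSet (P i)) ∧ Pairwise (fun i j => Disjoint (P i) (P j)) ∧ (⋃ i, P i) = Z ∧
    Pairwise (fun i j => Disjoint (g i • P i) (g j • P j)) ∧ ∀ i, g i • P i ⊆ Y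

theorem Pk.empty (Y : Set X) : Pk G ∅ Y :=
  ⟨Empty, inferInstance, fun e => e.elim, fun e => e.elim, fun e => e.elim, fun e => e.elim,
    by simp, fun e => e.elim, fun e => e.elim⟩

theorem Pk.single {Z Y : Set X} (hZ : MeasurableSet Z) (g : G) (h : g • Z ⊆ Y) : Pk G Z Y := by
  refine ⟨Unit, inferInstance, fun _ => Z, fun _ => g, fun _ => hZ, ?_, iUnion_const Z, ?_, fun _ => h⟩
  · intro i j hij
    exact absurd (Subsingleton.elim i j) hij
  · intro i j hij
    exact absurd (Subsingleton.elim i j) hij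

theorem Pk.mono {Z Y Z' Y' : Set X} (h : Pk G Z Y) (hZ : Z' ⊆ Z) (hZm : MeasurableSet Z')
    (hY : Y ⊆ Y') : Pk G Z' Y' := by
  obtain ⟨ι, hι, P, g, h1, h2, h3, h4, h5⟩ := h
  refine ⟨ι, hι, fun i => P i ∩ Z', g, fun i => (h1 i).inter hZm, ?_, ?_, ?_, ?_⟩
  · intro i j hij
    exact (h2 hij).mono inter_subset_left inter_subset_left
  · rw [← iUnion_inter, h3]
    exact inter_eq_right.mpr hZ
  · intro i j hij
    exact (h4 hij).mono (smul_set_mono inter_subset_left) (smul_set_mono inter_subset_left)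
  · intro i
    exact ((smul_set_mono inter_subset_left).trans (h5 i)).trans hY

theorem Pk.iUnion {κ : Type} [Countable κ] {Z Y : κ → Set X}
    (hZ : Pairwise (fun i j => Disjoint (Z i) (Z j)))
    (hY : Pairwise (fun i j => Disjoint (Y i) (Y j)))
    (h : ∀ k, Pk G (Z k) (Y k)) : Pk G (⋃ k, Z k) (⋃ k, Y k) := by
  choose ι hι P g h1 h2 h3 h4 h5 using h
  refine ⟨Σ k, ι k, inferInstance, fun p => P p.1 p.2, fun p => g p.1 p.2,
    fun p => h1 p.1 p.2, ?_, ?_, ?_, ?_⟩
  · rintro ⟨k, i⟩ ⟨l, j⟩ hne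
    by_cases hkl : k = l
    · subst hkl
      have : i ≠ j := by
        rintro rfl
        exact hne rfl
      exact h2 k this
    · have ha : P k i ⊆ Z k := by rw [← h3 k]; exact subset_iUnion (P k) i
      have hb : P l j ⊆ Z l := by rw [← h3 l]; exact subset_iUnion (P l) j
      exact (hZ hkl).mono ha hb
  · ext x
    simp only [mem_iUnion, Sigma.exists]
    constructor
    · rintro ⟨k, i, hx⟩
      refine ⟨k, ?_⟩
      rw [← h3 k]
      exact mem_iUnion.mpr ⟨i, hx⟩
    · rintro ⟨k, hx⟩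
      rw [← h3 k] at hx
      obtain ⟨i, hi⟩ := mem_iUnion.mp hx
      exact ⟨k, i, hi⟩
  · rintro ⟨k, i⟩ ⟨l, j⟩ hne
    by_cases hkl : k = l
    · subst hkl
      have : i ≠ j := by
        rintro rfl
        exact hne rfl
      exact h4 k this
    · exact (hY hkl).mono (h5 k i) (h5 l j)
  · rintro ⟨k, i⟩
    exact (h5 k i).trans (subset_iUnion Y k)

theorem Pk.union {Z₁ Z₂ Y₁ Y₂ : Set X} (hZ : Disjoint Z₁ Z₂) (hY : Disjoint Y₁ Y₂)
    (h₁ : Pk G Z₁ Y₁) (h₂ : Pk G Z₂ Y₂) : Pk G (Z₁ ∪ Z₂) (Y₁ ∪ Y₂) := by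
  have key := Pk.iUnion (G := G) (κ := Bool) (Z := fun b => cond b Z₁ Z₂) (Y := fun b => cond b Y₁ Y₂)
    (by rintro (_ | _) (_ | _) h <;> simp_all [disjoint_comm])
    (by rintro (_ | _) (_ | _) h <;> simp_all [disjoint_comm])
    (by rintro (_ | _) <;> assumption)
  rw [← union_eq_iUnion, ← union_eq_iUnion] at key
  exact key

theorem meas_smul {A : Set X} (hA : MeasurableSet A) (g : G) : MeasurableSet (g • A) := by
  rw [← Set.preimage_smul_inv]
  have : Measurable (fun x : X => g⁻¹ • x) := (continuous_const_smul g⁻¹).measurable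
  exact this hA

end Pk

section Pack

variable {G X : Type*} [Group G] [TopologicalSpace G] [IsTopologicalGroup G]
  [LocallyCompactSpace G] [T2Space G] [MeasurableSpace G] [BorelSpace G]
  [TopologicalSpace X] [T2Space X] [MulAction G X] [ContinuousSMul G X] [MeasurableSpace X] [BorelSpace X]

/-- the preimage under the orbit map -/
def pre (x₀ : X) (Q : Set X) : Set G := {g | g • x₀ ∈ Q}

theorem mem_pre {x₀ : X} {Q : Set X} {g : G} : g ∈ (pre x₀ Q : Set G) ↔ g • x₀ ∈ Q := Iff.rfl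

theorem orbit_cont (x₀ : X) : Continuous fun g : G => g • x₀ := continuous_id.smul continuous_const

/-- The packing induction: `A` and `R` are compact thickenings (by `N`) of the preimages of the part `Z` still to be
packed and of the region `R₀` already used. -/
theorem pack_aux (μ : Measure G) [IsHaarMeasure μ] [Regular μ] {x₀ : X}
    (hs : ∀ x : X, ∃ g : G, g • x₀ = x) {C₀ U' N : Set G} {U : Set X} {β : ℝ}
    (hUo : IsOpen U) (hU'o : IsOpen U') (hβ0 : 0 < β) (hβ1 : β < 1)
    (hstep : ∀ A R : Set G, IsCompact A → A ⊆ C₀ → IsCompact R →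
      μ R ≤ μ U' / 2 → ∃ g : G,
        μ {x ∈ A | g * x ∉ U' \ R} ≤ ENNReal.ofReal (1 - β) * μ A)
    (hN : ∀ y ∈ U', ∀ u ∈ N, (y * u⁻¹) • x₀ ∈ U) (κ : ℝ≥0∞) (hκ : κ = ENNReal.ofReal (1 / β)) :
    ∀ (k : ℕ) (Z R₀ : Set X) (A R : Set G), MeasurableSet Z → MeasurableSet R₀ → IsCompact A →
      IsCompact R → A ⊆ C₀ → pre x₀ Z * N ⊆ A → pre x₀ R₀ * N ⊆ R → μ R + κ * μ A ≤ μ U' / 2 →
      ENNReal.ofReal (1 - β) ^ k * μ A < μ N → Pk G Z (U \ R₀) := by
  intro k
  induction k with
  | zero =>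
    intro Z R₀ A R _ _ _ _ _ hZN _ _ hlt
    rw [pow_zero, one_mul] at hlt
    have : Z = ∅ := by
      by_contra hne
      obtain ⟨x', hx'⟩ := Set.nonempty_iff_ne_empty.mpr hne
      obtain ⟨x, hxx⟩ := hs x'
      have hx : x ∈ (pre x₀ Z : Set G) := by rw [mem_pre, hxx]; exact hx'
      have h1 : x • N ⊆ A := by
        rintro _ ⟨u, hu, rfl⟩
        exact hZN ⟨x, hx, u, hu, rfl⟩
      have h2 : μ N ≤ μ A := by
        rw [← measure_smul μ x N]
        exact measure_mono h1
      exact absurd hlt (not_lt.mpr h2)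
    rw [this]
    exact Pk.empty _
  | succ k ih =>
    intro Z R₀ A R hZ hR₀ hA hR hAC hZN hRN hsum hlt
    have hRle : μ R ≤ μ U' / 2 := le_trans le_self_add hsum
    obtain ⟨g, hg⟩ := hstep A R hA hAC hR hRle
    set Z' : Set X := {x ∈ Z | g • x ∉ U \ R₀} with hZ'
    set A' : Set G := {x ∈ A | g * x ∉ U' \ R} with hA'
    have hcont : Continuous (fun x : G => g * x) := continuous_const_mul g
    have hcontX : Continuous (fun x : X => g • x) := continuous_const_smul g
    have hA'c : IsCompact A' := by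
      have : A' = A ∩ (fun x => g * x) ⁻¹' (U' \ R)ᶜ := rfl
      rw [this]
      exact hA.inter_right ((hU'o.sdiff hR.isClosed).isClosed_compl.preimage hcont)
    have hZ'm : MeasurableSet Z' := by
      have : Z' = Z ∩ (fun x => g • x) ⁻¹' (U \ R₀)ᶜ := rfl
      rw [this]
      exact hZ.inter (hcontX.measurable ((hUo.measurableSet.diff hR₀).compl))
    have hZ'N : pre x₀ Z' * N ⊆ A' := by
      rintro _ ⟨x, hx, u, hu, rfl⟩
      refine ⟨hZN ⟨x, hx.1, u, hu, rfl⟩, ?_⟩
      intro hmem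
      apply hx.2
      have hxU : g • x • x₀ ∈ U := by
        have := hN _ hmem.1 u hu
        rw [← mul_smul]
        simpa [mul_assoc] using this
      refine ⟨hxU, ?_⟩
      intro hxR
      apply hmem.2
      apply hRN
      exact ⟨g * x, by rw [mem_pre, mul_smul]; exact hxR, u, hu, by simp [mul_assoc]⟩
    have hgA : IsCompact (g • A) := hA.smul g
    have hR₀' : pre x₀ (R₀ ∪ g • Z) * N ⊆ R ∪ g • A := by
      rintro _ ⟨x, hx, u, hu, rfl⟩
      rcases hx with hx | hx
      · exact Or.inl (hRN ⟨x, hx, u, hu, rfl⟩)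
      · right
        have h1 : g⁻¹ * x ∈ (pre x₀ Z : Set G) := by
          rw [mem_pre, mul_smul]
          exact mem_smul_set_iff_inv_smul_mem.1 hx
        refine mem_smul_set_iff_inv_smul_mem.2 ?_
        have h2 := hZN ⟨g⁻¹ * x, h1, u, hu, rfl⟩
        simpa [mul_assoc] using h2
    have hκ1 : κ * ENNReal.ofReal (1 - β) + 1 = κ := by
      rw [hκ, ← ENNReal.ofReal_mul (by positivity), ← ENNReal.ofReal_one,
        ← ENNReal.ofReal_add (mul_nonneg (by positivity) (by linarith)) (by norm_num)]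
      congr 1
      field_simp
      ring
    have hsum' : μ (R ∪ g • A) + κ * μ A' ≤ μ U' / 2 := by
      calc μ (R ∪ g • A) + κ * μ A' ≤ (μ R + μ (g • A)) + κ * (ENNReal.ofReal (1 - β) * μ A) :=
            add_le_add (measure_union_le _ _) (mul_le_mul_right hg _)
        _ = μ R + (κ * ENNReal.ofReal (1 - β) + 1) * μ A := by
            rw [measure_smul]
            ring
        _ = μ R + κ * μ A := by rw [hκ1]
        _ ≤ μ U' / 2 := hsum
    have hlt' : ENNReal.ofReal (1 - β) ^ k * μ A' < μ N := by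
      refine lt_of_le_of_lt ?_ hlt
      rw [pow_succ, mul_assoc]
      exact mul_le_mul_right hg _
    have hIH := ih Z' (R₀ ∪ g • Z) A' (R ∪ g • A) hZ'm (hR₀.union (meas_smul hZ g)) hA'c
      (hR.union hgA) ((sep_subset _ _).trans hAC) hZ'N hR₀' hsum' hlt'
    have hpiece : Pk G (Z \ Z') ((U \ R₀) ∩ g • Z) := by
      apply Pk.single (hZ.diff hZ'm) g
      rintro _ ⟨x, hx, rfl⟩
      refine ⟨?_, ⟨x, hx.1, rfl⟩⟩
      by_contra hne
      exact hx.2 ⟨hx.1, hne⟩
    have hun := Pk.union (disjoint_sdiff_self_right (x := Z') (y := Z)) (Y₁ := U \ (R₀ ∪ g • Z))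
      (Y₂ := (U \ R₀) ∩ g • Z) ?_ hIH hpiece
    · refine hun.mono ?_ hZ ?_
      · intro x hx
        by_cases hxZ : x ∈ Z'
        · exact Or.inl hxZ
        · exact Or.inr ⟨hx, hxZ⟩
      · rintro x (hx | hx)
        · exact ⟨hx.1, fun h => hx.2 (Or.inl h)⟩
        · exact hx.1
    · rw [Set.disjoint_left]
      intro x hx hx'
      exact hx.2 (Or.inr hx'.2)

/-- The orbit map is proper: the preimages of compact sets are compact. -/
theorem pre_compact {x₀ : X} (hs : ∀ x : X, ∃ g : G, g • x₀ = x) (ho : IsOpenMap fun g : G => g • x₀)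
    (hst : IsCompact {h : G | h • x₀ = x₀}) {K : Set X} (hK : IsCompact K) : IsCompact (pre x₀ K : Set G) := by
  obtain ⟨T, hTc, hT1⟩ := exists_compact_mem_nhds (1 : G)
  have hcov : K ⊆ ⋃ g : G, (fun a : G => a • x₀) '' (g • interior T) := by
    intro x _
    obtain ⟨g, hg⟩ := hs x
    refine mem_iUnion.2 ⟨g, g, ?_, hg⟩
    refine mem_smul_set_iff_inv_smul_mem.2 ?_
    rw [smul_eq_mul, inv_mul_cancel]
    exact mem_interior_iff_mem_nhds.2 hT1
  obtain ⟨t, ht⟩ := hK.elim_finite_subcover _ (fun g => ho _ (isOpen_interior.smul g)) hcov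
  have hsub : (pre x₀ K : Set G) ⊆ ⋃ g ∈ t, (g • T) * {h : G | h • x₀ = x₀} := by
    intro a ha
    obtain ⟨g, hg⟩ := mem_iUnion.1 (ht ha)
    obtain ⟨hgt, b, hb, hba⟩ := mem_iUnion.1 hg
    refine mem_iUnion₂.2 ⟨g, hgt, b, smul_set_mono interior_subset hb, b⁻¹ * a, ?_, ?_⟩
    · show (b⁻¹ * a) • x₀ = x₀
      have hba' : b • x₀ = a • x₀ := hba
      rw [mul_smul, ← hba', inv_smul_smul]
    · simp
  have hc : IsCompact (⋃ g ∈ t, (g • T) * {h : G | h • x₀ = x₀}) :=
    t.isCompact_biUnion fun g _ => (hTc.smul g).mul hst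
  exact hc.of_isClosed_subset (hK.isClosed.preimage (orbit_cont x₀)) hsub

/-- Compact subsets whose preimages are in a compact region and have a measure which is small enough (depending only on
the region and on the open set `U`) can be packed into `U`. -/
theorem pack_small (μ : Measure G) [IsHaarMeasure μ] [Regular μ] {x₀ : X}
    (hs : ∀ x : X, ∃ g : G, g • x₀ = x) (ho : IsOpenMap fun g : G => g • x₀)
    (hst : IsCompact {h : G | h • x₀ = x₀}) {C : Set G} {U : Set X} (hC : IsCompact C)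
    (hUo : IsOpen U) (hUne : U.Nonempty) :
    ∃ δ : ℝ≥0∞, 0 < δ ∧ ∀ K : Set X, IsCompact K → pre x₀ K ⊆ C → μ (pre x₀ K) < δ → Pk G K U := by
  obtain ⟨x0', hx0'⟩ := hUne
  obtain ⟨x0, hx00⟩ := hs x0'
  have hx0 : x0 ∈ (pre x₀ U : Set G) := by rw [mem_pre, hx00]; exact hx0'
  have hUp : IsOpen (pre x₀ U : Set G) := hUo.preimage (orbit_cont x₀)
  obtain ⟨F, hFc, hF0, hFU⟩ := exists_compact_subset hUp hx0
  set U' : Set G := interior F with hU'
  have hU'o : IsOpen U' := isOpen_interior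
  have hclF : closure U' ⊆ F := closure_minimal interior_subset hFc.isClosed
  have hU'c : IsCompact (closure U') := hFc.of_isClosed_subset isClosed_closure hclF
  have hclU : closure U' ⊆ pre x₀ U := hclF.trans hFU
  have hU'ne : U'.Nonempty := ⟨x0, hF0⟩
  obtain ⟨C₀, hC₀c, hCC₀⟩ := exists_compact_superset hC
  obtain ⟨β, hβ0, hβ1, hstep⟩ := Pool.Agent.Results.MP_5eb27c_an.PackNull.step μ hC₀c hU'o hU'c hU'ne
  have hU'pos : 0 < μ U' := hU'o.measure_pos μ hU'ne
  set κ : ℝ≥0∞ := ENNReal.ofReal (1 / β) with hκ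
  have hκ0 : 0 < κ := ENNReal.ofReal_pos.mpr (by positivity)
  have hκt : κ ≠ ⊤ := ENNReal.ofReal_ne_top
  refine ⟨μ U' / 2 / κ, ENNReal.div_pos (ENNReal.div_pos hU'pos.ne' (by norm_num)).ne' hκt, ?_⟩
  intro K' hK' hKC hKδ
  obtain ⟨K, hKdef⟩ : ∃ K : Set G, K = pre x₀ K' := ⟨_, rfl⟩
  have hK : IsCompact K := by rw [hKdef]; exact pre_compact hs ho hst hK'
  rw [← hKdef] at hKC hKδ
  -- an open set around `K` of small measure inside the region
  obtain ⟨O, hKO, hOo, hOm⟩ := K.exists_isOpen_lt_of_lt _ hKδ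
  have hKO' : K ⊆ O ∩ interior C₀ := subset_inter hKO (hKC.trans hCC₀)
  obtain ⟨V₁, hV₁, hV₁K⟩ := compact_open_separated_mul_right hK (hOo.inter isOpen_interior) hKO'
  obtain ⟨V₂, hV₂, hV₂U⟩ := compact_open_separated_mul_right hU'c hUp hclU
  have hV : V₁ ∩ V₂⁻¹ ∈ 𝓝 (1 : G) := by
    apply inter_mem hV₁
    have := (continuous_inv (G := G)).continuousAt (x := 1)
    rw [ContinuousAt, inv_one] at this
    exact this hV₂
  obtain ⟨N, hNn, hNV, hNc⟩ := local_compact_nhds hV
  have hNpos : 0 < μ N := measure_pos_of_mem_nhds μ hNn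
  have hKN : K * N ⊆ O ∩ interior C₀ :=
    (mul_subset_mul_left (hNV.trans inter_subset_left)).trans hV₁K
  have hNU : ∀ y ∈ U', ∀ u ∈ N, (y * u⁻¹) • x₀ ∈ U := by
    intro y hy u hu
    apply hV₂U
    exact ⟨y, subset_closure hy, u⁻¹, (hNV hu).2, rfl⟩
  have hKNm : κ * μ (K * N) ≤ μ U' / 2 := by
    have h1 : μ (K * N) ≤ μ U' / 2 / κ :=
      (measure_mono (hKN.trans inter_subset_left)).trans hOm.le
    calc κ * μ (K * N) ≤ κ * (μ U' / 2 / κ) := mul_le_mul_right h1 _
      _ = μ U' / 2 := ENNReal.mul_div_cancel hκ0.ne' hκt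
  have hKNt : μ (K * N) ≠ ⊤ := (hK.mul hNc).measure_lt_top.ne
  obtain ⟨k, hk⟩ : ∃ k : ℕ, ENNReal.ofReal (1 - β) ^ k * μ (K * N) < μ N := by
    have h1 : Tendsto (fun k : ℕ => ENNReal.ofReal (1 - β) ^ k * μ (K * N)) atTop
        (𝓝 (0 * μ (K * N))) := by
      apply ENNReal.Tendsto.mul_const
      · apply ENNReal.tendsto_pow_atTop_nhds_zero_of_lt_one
        rw [← ENNReal.ofReal_one]
        exact (ENNReal.ofReal_lt_ofReal_iff (by norm_num)).mpr (by linarith)
      · exact Or.inr hKNt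
    rw [zero_mul] at h1
    exact (h1.eventually_lt_const hNpos).exists
  have := pack_aux μ hs hUo hU'o hβ0 hβ1 hstep hNU κ hκ k K' ∅ (K * N) ∅ hK'.measurableSet
    MeasurableSet.empty (hK.mul hNc) isCompact_empty
    ((hKN.trans inter_subset_right).trans interior_subset) (by rw [hKdef])
    (by
      rintro _ ⟨x, hx, u, hu, rfl⟩
      exact hx) (by simpa using hKNm) hk
  simpa using this

end Pack

end Pool.Agent.H8.HS
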